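import Pool.Agent.J6H39.IC.Main

/-! Project IC: from increments to the logarithmic scale. -/

set_option autoImplicit false

open Filter Topology Set MeasureTheory

namespace Pool.Agent.J6H39.IC

open Pool.Agent.J6H39.ML (fM w0 Od NT RHS ZC im_range comp_im summable_iff ZC_of_freq weak_iff window_top)
open Pool.Agent.H295R2 (JW JW_nonneg Mx)
open Pool.Agent.W120.WM (msq msq_eq)

/-- the Mertens function -/
noncomputable def MM (x : ℝ) : ℝ := ∑ n ∈ Finset.Icc 1 ⌊x⌋₊, ((ArithmeticFunction.moebius n : ℤ) : ℝ)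

/-- the mean square of its increments -/
noncomputable def D (κ X : ℝ) : ℝ := ∫ u in (1 : ℝ)..X, ((MM ((1 + κ) * u) - MM u) / u) ^ 2

theorem D_exp {κ : ℝ} (hκ : 0 ≤ κ) {V : ℝ} (hV : 0 ≤ V) : D κ (Real.exp V) = DD (Real.log (1 + κ)) V := by
  unfold D
  have h1 : (1 : ℝ) = Real.exp 0 := Real.exp_zero.symm
  conv_lhs => rw [h1]
  rw [intervalIntegral.integral_of_le (Real.exp_le_exp.2 hV)]
  have h := integral_image_eq_integral_abs_deriv_smul (s := Ioc 0 V) (f := Real.exp) (f' := Real.exp)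
    measurableSet_Ioc (fun x _ => (Real.hasDerivAt_exp x).hasDerivWithinAt) (Real.exp_injective.injOn)
    (fun u => ((MM ((1 + κ) * u) - MM u) / u) ^ 2)
  have himg : Real.exp '' Ioc 0 V = Ioc (Real.exp 0) (Real.exp V) := by
    ext y
    simp only [mem_image, mem_Ioc]
    constructor
    · rintro ⟨x, hx, rfl⟩
      exact ⟨Real.exp_lt_exp.2 hx.1, Real.exp_le_exp.2 hx.2⟩
    · intro hy
      have hy0 : 0 < y := (Real.exp_pos 0).trans hy.1
      exact ⟨Real.log y, ⟨(Real.lt_log_iff_exp_lt hy0).2 hy.1, (Real.log_le_iff_le_exp hy0).2 hy.2⟩,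
        Real.exp_log hy0⟩
  rw [himg] at h
  rw [← h1] at h ⊢
  rw [h]
  unfold DD
  rw [intervalIntegral.integral_of_le hV]
  refine integral_congr_ae (Eventually.of_forall fun s => ?_)
  beta_reduce
  set l := Real.log (1 + κ) with hl
  have hκ1 : 0 < 1 + κ := by linarith
  have e1 : (1 + κ) * Real.exp s = Real.exp (s + l) := by
    rw [Real.exp_add, hl, Real.exp_log hκ1, mul_comm]
  have e2 : gI l s = (MM ((1 + κ) * Real.exp s) - MM (Real.exp s)) * Real.exp (-(s / 2)) := by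
    unfold gI fM
    rw [e1, ← mul_assoc, mul_comm (Real.exp (l / 2)), mul_assoc, ← Real.exp_add, sub_mul]
    congr 2
    congr 1
    ring
  rw [e2, abs_of_pos (Real.exp_pos s), smul_eq_mul, mul_pow, div_pow, ← Real.exp_nat_mul (-(s / 2)) 2]
  have e3 : ((2 : ℕ) : ℝ) * -(s / 2) = -s := by push_cast; ring
  rw [e3, Real.exp_neg]
  have := (Real.exp_pos s).ne'
  field_simp

theorem D_eq {κ : ℝ} (hκ : 0 ≤ κ) {X : ℝ} (hX : 1 ≤ X) : D κ X = DD (Real.log (1 + κ)) (Real.log X) := by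
  rw [← D_exp hκ (Real.log_nonneg hX), Real.exp_log (by linarith)]

theorem DD_nonneg (l V : ℝ) (hV : 0 ≤ V) : 0 ≤ DD l V := by
  unfold DD
  exact intervalIntegral.integral_nonneg hV fun v _ => sq_nonneg _

end Pool.Agent.J6H39.IC
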