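import Pool.Agent.J6H39.IC.Fin1

/-! Project IC: the three theorems. -/

set_option autoImplicit false

open Filter Topology Set MeasureTheory

namespace Pool.Agent.J6H39.IC

open Pool.Agent.J6H39.ML (fM w0 Od NT RHS ZC im_range comp_im summable_iff ZC_of_freq weak_iff window_top)
open Pool.Agent.H295R2 (JW JW_nonneg Mx)
open Pool.Agent.W120.WM (msq msq_eq)

theorem bz_summable (h : ZC) : Summable bz := h.2

theorem log_pos' {κ : ℝ} (hκ : 0 < κ) : 0 < Real.log (1 + κ) := Real.log_pos (by linarith)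

/-- the limit -/
noncomputable def V0 (κ : ℝ) : ℝ :=
  ∑' ρ : NT, ‖((1 + κ : ℝ) : ℂ) ^ (ρ : ℂ) - 1‖ ^ 2 / ‖(ρ : ℂ) * deriv riemannZeta ρ‖ ^ 2

theorem V0_eq (hR : RHS) {κ : ℝ} (hκ : 0 < κ) : V0 κ = CC gz bz (Real.log (1 + κ)) := by
  unfold V0 CC
  exact tsum_congr fun ρ => term_eq hR hκ ρ

theorem V0_summable (h : ZC) {κ : ℝ} (hκ : 0 < κ) :
    Summable fun ρ : NT => ‖((1 + κ : ℝ) : ℂ) ^ (ρ : ℂ) - 1‖ ^ 2 / ‖(ρ : ℂ) * deriv riemannZeta ρ‖ ^ 2 := by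
  have h1 := CC_summable (g := gz) bz_nonneg (bz_summable h) (Real.log (1 + κ))
  exact h1.congr fun ρ => (term_eq h.1 hκ ρ).symm

theorem D_lim (h : ZC) {κ : ℝ} (hκ : 0 < κ) :
    Tendsto (fun X : ℝ => D κ X / Real.log X) atTop (𝓝 (V0 κ)) := by
  rw [V0_eq h.1 hκ, CC_tsum h.1]
  have h1 := (DD_lim h (log_pos' hκ).le).comp Real.tendsto_log_atTop
  refine h1.congr' ?_
  filter_upwards [eventually_ge_atTop 1] with X hX
  simp only [Function.comp]
  rw [D_eq hκ.le hX]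

theorem ZC_of_DD {l : ℝ} (hl : 0 < l) {C : ℝ} (h : ∃ᶠ V : ℝ in atTop, DD l V ≤ C * V) : ZC := by
  obtain ⟨K, hK, hb⟩ := F_le_DD hl
  have h1 : ∃ᶠ V : ℝ in atTop, msq 1 (Real.exp V) ≤ K * (1 + |C|) * Real.log (Real.exp V) := by
    refine (h.and_eventually (eventually_ge_atTop 1)).mono fun V hV => ?_
    obtain ⟨h2, h3⟩ := hV
    have h4 : (1 : ℝ) ≤ Real.exp V := Real.one_le_exp (by linarith)
    rw [msq_eq one_pos h4, Real.log_one, Real.log_exp]
    have h5 := hb V (by linarith)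
    have h6 : C * V ≤ |C| * V := mul_le_mul_of_nonneg_right (le_abs_self C) (by linarith)
    calc JW 0 V ≤ K * (1 + DD l V) := h5
      _ ≤ K * (V + |C| * V) := by gcongr; linarith
      _ = K * (1 + |C|) * V := by ring
  refine ZC_of_freq one_pos le_rfl (C := K * (1 + |C|)) ?_
  have h2 := Real.tendsto_exp_atTop.frequently (p := fun x => msq 1 x ≤ K * (1 + |C|) * Real.log x) h1
  refine h2.mono fun x hx => ?_
  rw [sub_self, Real.rpow_zero]
  exact hx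

theorem ZC_of_D {κ : ℝ} (hκ : 0 < κ) {C : ℝ} (h : ∃ᶠ X : ℝ in atTop, D κ X ≤ C * Real.log X) : ZC := by
  refine ZC_of_DD (log_pos' hκ) (C := C) ?_
  have h1 : ∃ᶠ X : ℝ in atTop, DD (Real.log (1 + κ)) (Real.log X) ≤ C * Real.log X := by
    refine (h.and_eventually (eventually_ge_atTop 1)).mono fun X hX => ?_
    rw [← D_eq hκ.le hX.2]
    exact hX.1
  exact Real.tendsto_log_atTop.frequently h1

theorem D_top (h : ¬ ZC) {κ : ℝ} (hκ : 0 < κ) :
    Tendsto (fun X : ℝ => D κ X / Real.log X) atTop atTop := by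
  rw [tendsto_atTop]
  intro C
  by_contra hcon
  rw [not_eventually] at hcon
  refine h (ZC_of_D hκ (C := C) ?_)
  refine (hcon.and_eventually (eventually_gt_atTop 1)).mono fun x hx => ?_
  obtain ⟨h1, h2⟩ := hx
  have hl : 0 < Real.log x := Real.log_pos h2
  rw [not_le, div_lt_iff₀ hl] at h1
  exact h1.le

theorem J_nonneg (T : ℝ) : 0 ≤ J T := by
  unfold J
  exact finsum_nonneg fun ρ => finsum_nonneg fun _ => by positivity

theorem J_mono (hR : RHS) {S T : ℝ} (h : S ≤ T) : J S ≤ J T := by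
  classical
  have h1 := sum_W hR S
  have h2 := sum_W hR T
  have h3 : ∑ ρ ∈ (fin_W S).toFinset, 1 / ‖deriv riemannZeta ρ‖ ^ 2 ≤
      ∑ ρ ∈ (fin_W T).toFinset, 1 / ‖deriv riemannZeta ρ‖ ^ 2 := by
    refine Finset.sum_le_sum_of_subset_of_nonneg ?_ fun ρ _ _ => by positivity
    intro ρ hρ
    rw [Set.Finite.mem_toFinset] at hρ ⊢
    exact ⟨hρ.1, hρ.2.trans h⟩
  linarith

/-- a bound for `J_{-1}` gives the condition on the zeros -/
theorem ZC_of_J (hR : RHS) {C δ : ℝ} (hδ : 0 < δ) (hJ : ∀ T : ℝ, 1 ≤ T → J T ≤ C * T ^ (2 - δ)) :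
    0 ≤ C ∧ ZC ∧ ∀ s : ℝ, 1 ≤ s → ∀ S : Finset NT,
      ∑ ρ ∈ S, bz ρ * (gz ρ ^ 2 + 1 / 4) / (s ^ 2 + gz ρ ^ 2) ≤
        4 * (2 * C) / (1 - (1 / 2 : ℝ) ^ δ) * s ^ (-δ) := by
  have hC : 0 ≤ C := by
    have h1 := hJ 1 le_rfl
    rw [Real.one_rpow, mul_one] at h1
    exact (J_nonneg 1).trans h1
  have ha : ∀ ρ : NT, 0 ≤ bz ρ * (gz ρ ^ 2 + 1 / 4) := fun ρ => mul_nonneg (bz_nonneg ρ) (by positivity)
  have hd : ∀ s : ℝ, 1 ≤ s → ∀ S : Finset NT,
      ∑ ρ ∈ S, bz ρ * (gz ρ ^ 2 + 1 / 4) / (s ^ 2 + gz ρ ^ 2) ≤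
        4 * (2 * C) / (1 - (1 / 2 : ℝ) ^ δ) * s ^ (-δ) := by
    intro s hs S
    refine dyadic (g := gz) ha (by positivity) hδ (fun T hT S hS => ?_) hs S
    have h1 := fin_le hR T S hS
    have h2 := hJ T hT
    linarith
  refine ⟨hC, ⟨hR, ?_⟩, hd⟩
  have hb : ∀ S : Finset NT, ∑ ρ ∈ S, bz ρ ≤ 4 * (4 * (2 * C) / (1 - (1 / 2 : ℝ) ^ δ) * (1 : ℝ) ^ (-δ)) := by
    intro S
    refine le_trans ?_ (mul_le_mul_of_nonneg_left (hd 1 le_rfl S) (by norm_num))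
    rw [Finset.mul_sum]
    refine Finset.sum_le_sum fun ρ _ => ?_
    have h1 := bz_nonneg ρ
    have h2 : 0 < 1 + gz ρ ^ 2 := by positivity
    rw [one_pow, ← mul_div_assoc, le_div_iff₀ h2]
    nlinarith [mul_nonneg h1 (sq_nonneg (gz ρ))]
  exact summable_of_sum_le (f := bz) bz_nonneg hb

theorem CC_of_J (hR : RHS) {C δ : ℝ} (hδ : 0 < δ) (hJ : ∀ T : ℝ, 1 ≤ T → J T ≤ C * T ^ (2 - δ)) {κ : ℝ}
    (hκ : 0 < κ) (hκ1 : κ ≤ 1) :
    CC gz bz (Real.log (1 + κ)) ≤ 68 * (4 * (2 * C) / (1 - (1 / 2 : ℝ) ^ δ)) * κ ^ δ := by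
  obtain ⟨hC, h, hd⟩ := ZC_of_J hR hδ hJ
  set l := Real.log (1 + κ) with hl
  have hl0 : 0 ≤ l := (log_pos' hκ).le
  have hlκ : l ≤ κ := by
    have := Real.log_le_sub_one_of_pos (by linarith : 0 < 1 + κ)
    linarith
  unfold CC
  refine Real.tsum_le_of_sum_le (fun ρ => mul_nonneg (bz_nonneg ρ) (qq_nonneg _ _)) fun S => ?_
  have hs : 1 ≤ κ⁻¹ := (one_le_inv₀ hκ).2 hκ1
  have h1 := hd κ⁻¹ hs S
  have h2 : (κ⁻¹) ^ (-δ) = κ ^ δ := by
    rw [Real.rpow_neg (by positivity), Real.inv_rpow hκ.le, inv_inv]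
  rw [h2] at h1
  calc ∑ ρ ∈ S, bz ρ * qq (gz ρ) l ≤
      ∑ ρ ∈ S, 68 * (bz ρ * (gz ρ ^ 2 + 1 / 4) / ((κ⁻¹) ^ 2 + gz ρ ^ 2)) := by
        refine Finset.sum_le_sum fun ρ _ => ?_
        have h3 := mul_le_mul_of_nonneg_left (qq_up (γ := gz ρ) hl0 (hlκ.trans hκ1) hlκ hκ) (bz_nonneg ρ)
        refine h3.trans (le_of_eq ?_)
        ring
    _ = 68 * ∑ ρ ∈ S, bz ρ * (gz ρ ^ 2 + 1 / 4) / ((κ⁻¹) ^ 2 + gz ρ ^ 2) := by rw [Finset.mul_sum]
    _ ≤ 68 * (4 * (2 * C) / (1 - (1 / 2 : ℝ) ^ δ) * κ ^ δ) := by gcongr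
    _ = _ := by ring

theorem J_le_CC (h : ZC) {T : ℝ} (hT : 1 ≤ T) :
    2 * J T ≤ 16 * (4 * T) ^ 2 * CC gz bz (Real.log (1 + (4 * T)⁻¹)) := by
  have hR := h.1
  set κ := (4 * T)⁻¹ with hκdef
  have hκ : 0 < κ := by positivity
  set l := Real.log (1 + κ) with hl
  have hl0 : 0 < l := log_pos' hκ
  have hlκ : l ≤ κ := by
    have := Real.log_le_sub_one_of_pos (by linarith : 0 < 1 + κ)
    linarith
  have hκ1 : κ ≤ 1 := by
    rw [hκdef]
    exact inv_le_one_of_one_le₀ (by linarith)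
  have hκl : κ / 2 ≤ l := by
    have h1 := Real.one_sub_inv_le_log_of_pos (by linarith : 0 < 1 + κ)
    have h2 : κ / 2 ≤ 1 - (1 + κ)⁻¹ := by
      have h3 : 1 - (1 + κ)⁻¹ = κ / (1 + κ) := by
        field_simp
        ring
      rw [h3]
      gcongr
      linarith
    linarith
  rw [← JJ_eq hR]
  unfold JJ CC
  rw [← tsum_mul_left]
  have hs := CC_summable (g := gz) bz_nonneg (bz_summable h) l
  have hle : ∀ ρ : NT, (if |gz ρ| ≤ T then bz ρ * (gz ρ ^ 2 + 1 / 4) else 0 : ℝ) ≤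
      16 * (4 * T) ^ 2 * (bz ρ * qq (gz ρ) l) := by
    intro ρ
    have hb := bz_nonneg ρ
    have hq := qq_nonneg (gz ρ) l
    split_ifs with hg
    · have h1 : gz ρ ^ 2 ≤ T ^ 2 := by
        rw [← sq_abs (gz ρ)]
        gcongr
      have h2 : l ^ 2 ≤ κ ^ 2 := by gcongr
      have h3 : (4 * T) ^ 2 * κ ^ 2 = 1 := by
        rw [hκdef]
        field_simp
      have h4 : (gz ρ ^ 2 + 1 / 4) * l ^ 2 ≤ 1 / 4 := by
        have h5 : (gz ρ ^ 2 + 1 / 4) * l ^ 2 ≤ (T ^ 2 + 1 / 4) * κ ^ 2 := by gcongr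
        have h6 : 0 < κ ^ 2 := by positivity
        nlinarith
      have h5 := qq_ge h4
      have h6 : (κ / 2) ^ 2 ≤ l ^ 2 := by gcongr
      have h7 : (gz ρ ^ 2 + 1 / 4) * (κ / 2) ^ 2 / 4 ≤ qq (gz ρ) l := by
        refine le_trans ?_ h5
        gcongr
      have h8 : gz ρ ^ 2 + 1 / 4 = 16 * (4 * T) ^ 2 * ((gz ρ ^ 2 + 1 / 4) * (κ / 2) ^ 2 / 4) := by
        have : 16 * (4 * T) ^ 2 * ((gz ρ ^ 2 + 1 / 4) * (κ / 2) ^ 2 / 4) =
          (gz ρ ^ 2 + 1 / 4) * ((4 * T) ^ 2 * κ ^ 2) := by ring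
        rw [this, h3, mul_one]
      calc bz ρ * (gz ρ ^ 2 + 1 / 4) = bz ρ * (16 * (4 * T) ^ 2 * ((gz ρ ^ 2 + 1 / 4) * (κ / 2) ^ 2 / 4)) := by
            rw [← h8]
        _ ≤ bz ρ * (16 * (4 * T) ^ 2 * qq (gz ρ) l) := by gcongr
        _ = _ := by ring
    · positivity
  refine Summable.tsum_le_tsum hle ?_ (hs.mul_left _)
  refine Summable.of_nonneg_of_le (fun ρ => ?_) hle (hs.mul_left _)
  have hb := bz_nonneg ρ
  split_ifs
  · positivity
  · exact le_rfl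

/-- **power bounds** -/
theorem pow_iff {δ : ℝ} (hδ : 0 < δ) :
    ((∀ ρ ∈ NT, ρ.re = 1 / 2 ∧ deriv riemannZeta ρ ≠ 0) ∧ ∃ C : ℝ, ∀ T : ℝ, 1 ≤ T → J T ≤ C * T ^ (2 - δ)) ↔
    ∃ C : ℝ, ∀ κ : ℝ, 0 < κ → κ ≤ 1 → ∀ᶠ X : ℝ in atTop, D κ X ≤ C * κ ^ δ * Real.log X := by
  constructor
  · rintro ⟨hR, C, hJ⟩
    obtain ⟨hC, h, -⟩ := ZC_of_J hR hδ hJ
    refine ⟨68 * (4 * (2 * C) / (1 - (1 / 2 : ℝ) ^ δ)) + 1, fun κ hκ hκ1 => ?_⟩
    have h1 := D_lim h hκ
    rw [V0_eq hR hκ] at h1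
    have h2 := CC_of_J hR hδ hJ hκ hκ1
    have h3 : CC gz bz (Real.log (1 + κ)) < (68 * (4 * (2 * C) / (1 - (1 / 2 : ℝ) ^ δ)) + 1) * κ ^ δ := by
      have : 0 < κ ^ δ := by positivity
      linarith
    filter_upwards [h1.eventually (gt_mem_nhds h3), eventually_gt_atTop 1] with X hX hX1
    have hl : 0 < Real.log X := Real.log_pos hX1
    rw [div_lt_iff₀ hl] at hX
    exact hX.le
  · rintro ⟨C, hC⟩
    have h : ZC := by
      refine ZC_of_D one_pos (C := C * 1 ^ δ) ?_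
      exact (hC 1 one_pos le_rfl).frequently
    refine ⟨h.1, 8 * C * 4 ^ (2 - δ), fun T hT => ?_⟩
    set κ := (4 * T)⁻¹ with hκdef
    have hκ : 0 < κ := by positivity
    have hκ1 : κ ≤ 1 := by
      rw [hκdef]
      exact inv_le_one_of_one_le₀ (by linarith)
    have h1 := D_lim h hκ
    rw [V0_eq h.1 hκ] at h1
    have h2 : CC gz bz (Real.log (1 + κ)) ≤ C * κ ^ δ := by
      refine le_of_tendsto h1 ?_
      filter_upwards [hC κ hκ hκ1, eventually_gt_atTop 1] with X hX hX1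
      have hl : 0 < Real.log X := Real.log_pos hX1
      rw [div_le_iff₀ hl]
      exact hX
    have h3 := J_le_CC h hT
    rw [← hκdef] at h3
    have h4 : κ ^ δ = (4 * T) ^ (-δ) := by
      rw [hκdef, Real.inv_rpow (by positivity), Real.rpow_neg (by positivity)]
    have h5 : (4 * T) ^ 2 * (4 * T) ^ (-δ) = 4 ^ (2 - δ) * T ^ (2 - δ) := by
      rw [← Real.mul_rpow (by norm_num) (by linarith), ← Real.rpow_natCast, ← Real.rpow_add (by positivity)]
      congr 1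
    calc J T ≤ 8 * (4 * T) ^ 2 * CC gz bz (Real.log (1 + κ)) := by linarith
      _ ≤ 8 * (4 * T) ^ 2 * (C * κ ^ δ) := by gcongr
      _ = 8 * C * ((4 * T) ^ 2 * (4 * T) ^ (-δ)) := by rw [h4]; ring
      _ = 8 * C * 4 ^ (2 - δ) * T ^ (2 - δ) := by rw [h5]; ring

/-! the asymptotic formula -/

theorem lim_change {F : ℝ → ℝ} {B : ℝ} :
    Tendsto (fun l => F l / l) (𝓝[>] 0) (𝓝 B) ↔ Tendsto (fun κ => F (Real.log (1 + κ)) / κ) (𝓝[>] 0) (𝓝 B) := by
  -- log (1 + κ) / κ → 1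
  have hL : Tendsto (fun κ : ℝ => Real.log (1 + κ)) (𝓝[>] 0) (𝓝[>] 0) := by
    rw [tendsto_nhdsWithin_iff]
    constructor
    · have h1 : ContinuousAt (fun κ : ℝ => Real.log (1 + κ)) 0 :=
        (continuousAt_const.add continuousAt_id).log (by norm_num)
      have h2 := h1.tendsto
      simp only [add_zero, Real.log_one] at h2
      exact h2.mono_left nhdsWithin_le_nhds
    · filter_upwards [self_mem_nhdsWithin] with κ hκ
      exact log_pos' hκ
  have hE : Tendsto (fun l : ℝ => Real.exp l - 1) (𝓝[>] 0) (𝓝[>] 0) := by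
    rw [tendsto_nhdsWithin_iff]
    constructor
    · have h1 : ContinuousAt (fun l : ℝ => Real.exp l - 1) 0 := by fun_prop
      have h2 := h1.tendsto
      simp only [Real.exp_zero, sub_self] at h2
      exact h2.mono_left nhdsWithin_le_nhds
    · filter_upwards [self_mem_nhdsWithin] with l hl
      have := Real.add_one_lt_exp (ne_of_gt hl)
      exact mem_Ioi.2 (by have := mem_Ioi.1 hl; linarith)
  have hd : Tendsto (fun l : ℝ => (Real.exp l - 1) / l) (𝓝[>] 0) (𝓝 1) := by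
    have h1 := (Real.hasDerivAt_exp 0).tendsto_slope
    rw [Real.exp_zero] at h1
    have h2 := h1.mono_left (nhdsWithin_mono (0 : ℝ) (fun x (hx : x ∈ Ioi (0 : ℝ)) => (ne_of_gt hx : x ≠ 0)))
    refine h2.congr fun l => ?_
    rw [slope_def_field, Real.exp_zero, sub_zero]
  have hr : Tendsto (fun κ : ℝ => Real.log (1 + κ) / κ) (𝓝[>] 0) (𝓝 1) := by
    have h1 := (hd.comp hL).inv₀ one_ne_zero
    rw [inv_one] at h1
    refine h1.congr' ?_
    filter_upwards [self_mem_nhdsWithin] with κ hκ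
    have hκ0 : 0 < κ := hκ
    simp only [Function.comp]
    rw [Real.exp_log (by linarith), inv_div]
    congr 1
    ring
  constructor
  · intro h
    have h1 := (h.comp hL).mul hr
    rw [mul_one] at h1
    refine h1.congr' ?_
    filter_upwards [self_mem_nhdsWithin] with κ hκ
    have hκ0 : 0 < κ := hκ
    have hl := log_pos' hκ0
    simp only [Function.comp]
    field_simp
  · intro h
    have h1 := (h.comp hE).mul hd
    rw [mul_one] at h1
    refine h1.congr' ?_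
    filter_upwards [self_mem_nhdsWithin] with l hl
    have hl0 : 0 < l := hl
    have hk : 0 < Real.exp l - 1 := by
      have := Real.add_one_lt_exp hl0.ne'
      linarith
    simp only [Function.comp]
    have e : 1 + (Real.exp l - 1) = Real.exp l := by ring
    rw [e, Real.log_exp]
    field_simp

theorem asym_iff (A : ℝ) :
    ((∀ ρ ∈ NT, ρ.re = 1 / 2 ∧ deriv riemannZeta ρ ≠ 0) ∧ Tendsto (fun T : ℝ => J T / T) atTop (𝓝 A)) ↔
    ∀ ε : ℝ, 0 < ε → ∃ κ₀ : ℝ, 0 < κ₀ ∧ ∀ κ : ℝ, 0 < κ → κ < κ₀ → ∀ᶠ X : ℝ in atTop,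
      |D κ X / (κ * Real.log X) - 2 * Real.pi * A| ≤ ε := by
  have hcount := countable_NT
  -- the equivalence under the condition on the zeros
  have key : ∀ h : ZC, Tendsto (fun T : ℝ => J T / T) atTop (𝓝 A) ↔
      Tendsto (fun κ => CC gz bz (Real.log (1 + κ)) / κ) (𝓝[>] 0) (𝓝 (2 * Real.pi * A)) := by
    intro h
    rw [← lim_change, ← tauber (g := gz) bz_nonneg (bz_summable h) A]
    have e : (fun T => JJ gz bz T / T) = fun T => 2 * (J T / T) := by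
      funext T
      rw [JJ_eq h.1]
      ring
    rw [e]
    constructor
    · intro h1
      exact h1.const_mul 2
    · intro h1
      have h2 := h1.const_mul (1 / 2 : ℝ)
      have e2 : (1 / 2 : ℝ) * (2 * A) = A := by ring
      rw [e2] at h2
      refine h2.congr fun T => ?_
      ring
  have hD : ∀ (h : ZC) {κ : ℝ}, 0 < κ → Tendsto (fun X => D κ X / (κ * Real.log X)) atTop
      (𝓝 (CC gz bz (Real.log (1 + κ)) / κ)) := by
    intro h κ hκ
    have h1 := D_lim h hκ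
    rw [V0_eq h.1 hκ] at h1
    have h2 := h1.div_const κ
    refine h2.congr fun X => ?_
    rw [div_div, mul_comm]
  constructor
  · rintro ⟨hR, hJ⟩
    have hb : ∃ C : ℝ, ∀ T : ℝ, 1 ≤ T → J T ≤ C * T ^ ((2 : ℝ) - 1) := by
      obtain ⟨T0, hT0⟩ := eventually_atTop.1 (hJ.eventually (gt_mem_nhds (lt_add_one A)))
      refine ⟨max (A + 1) (J (max T0 1)), fun T hT => ?_⟩
      have e : (2 : ℝ) - 1 = 1 := by norm_num
      rw [e, Real.rpow_one]
      have hT' : 0 < T := by linarith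
      rcases le_total (max T0 1) T with h1 | h1
      · have h2 := hT0 T ((le_max_left _ _).trans h1)
        rw [div_lt_iff₀ hT'] at h2
        exact h2.le.trans (mul_le_mul_of_nonneg_right (le_max_left _ _) hT'.le)
      · have h2 := J_mono hR h1
        have h3 := J_nonneg (max T0 1)
        calc J T ≤ J (max T0 1) := h2
          _ ≤ J (max T0 1) * T := by nlinarith
          _ ≤ _ := mul_le_mul_of_nonneg_right (le_max_right _ _) hT'.le
    obtain ⟨C, hC⟩ := hb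
    obtain ⟨-, h, -⟩ := ZC_of_J hR one_pos hC
    have h1 := (key h).1 hJ
    intro ε hε
    have h2 := (Metric.tendsto_nhdsWithin_nhds.1 h1) ε hε
    obtain ⟨κ₀, hκ₀, h3⟩ := h2
    refine ⟨κ₀, hκ₀, fun κ hκ hκκ => ?_⟩
    have h4 := h3 (show κ ∈ Ioi (0 : ℝ) from hκ) (by rw [Real.dist_eq, sub_zero, abs_of_pos hκ]; exact hκκ)
    rw [Real.dist_eq] at h4
    have h5 := (((hD h hκ).sub_const (2 * Real.pi * A)).abs).eventually (gt_mem_nhds h4)
    exact h5.mono fun X hX => hX.le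
  · intro hA
    have h : ZC := by
      obtain ⟨κ₀, hκ₀, h1⟩ := hA 1 one_pos
      have h2 := h1 (κ₀ / 2) (by positivity) (by linarith)
      refine ZC_of_D (κ := κ₀ / 2) (by positivity) (C := (2 * Real.pi * A + 1) * (κ₀ / 2)) ?_
      refine Eventually.frequently ?_
      filter_upwards [h2, eventually_gt_atTop 1] with X hX hX1
      have hl : 0 < Real.log X := Real.log_pos hX1
      have h3 := (abs_le.1 hX).2
      have h4 : D (κ₀ / 2) X / (κ₀ / 2 * Real.log X) ≤ 2 * Real.pi * A + 1 := by linarith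
      rw [div_le_iff₀ (by positivity)] at h4
      linarith
    refine ⟨h.1, (key h).2 ?_⟩
    rw [Metric.tendsto_nhdsWithin_nhds]
    intro ε hε
    obtain ⟨κ₀, hκ₀, h1⟩ := hA (ε / 2) (by positivity)
    refine ⟨κ₀, hκ₀, fun {κ} hκ hκκ => ?_⟩
    have hκ0 : 0 < κ := hκ
    rw [Real.dist_eq, sub_zero, abs_of_pos hκ0] at hκκ
    have h2 := h1 κ hκ0 hκκ
    rw [Real.dist_eq]
    have h3 := le_of_tendsto ((hD h hκ0).sub_const (2 * Real.pi * A)).abs h2
    linarith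

end Pool.Agent.J6H39.IC
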