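import Pool.Agent.J6H39.IC.T5
import Pool.Agent.J6H39.ML.Main

/-! Project IC: the mean square of the increments of `M` on the logarithmic scale. -/

set_option autoImplicit false

open Filter Topology Set MeasureTheory

namespace Pool.Agent.J6H39.IC

open Pool.Agent.J6H39.ML (fM fM_sq JW_fM PP PP_cont wc w0 w0_mem w0_not LU mem_LU Od pt NT RHS ZC T_HAD hadamard
  rem_bound exists_gap mean_PP QU QU_tendsto eps eps_tendsto summable_iff summable_eps)
open Pool.Agent.H295R2 (JW Mx JW_integrable Mx_meas)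

/-- mean squares by approximation -/
theorem mean_of_approx {f : ℝ → ℝ} {S : ℝ} (hS0 : 0 ≤ S)
    (hf : ∀ V : ℝ, 0 ≤ V → IntervalIntegrable (fun v => f v ^ 2) volume 0 V)
    (h : ∀ ε : ℝ, 0 < ε → ∃ (P : ℝ → ℂ) (SP : ℝ), Continuous P ∧
      Tendsto (fun V : ℝ => V⁻¹ * ∫ v in (0 : ℝ)..V, ‖P v‖ ^ 2) atTop (𝓝 SP) ∧ |SP - S| ≤ ε ∧
      ∀ᶠ V : ℝ in atTop, IntervalIntegrable (fun v => ‖((f v : ℝ) : ℂ) - P v‖ ^ 2) volume 0 V ∧
        ∫ v in (0 : ℝ)..V, ‖((f v : ℝ) : ℂ) - P v‖ ^ 2 ≤ ε * V) :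
    Tendsto (fun V : ℝ => (∫ v in (0 : ℝ)..V, f v ^ 2) / V) atTop (𝓝 S) := by
  rw [Metric.tendsto_nhds]
  intro η hη
  set θ := min (1 / 8) (η / (8 * (S + 1))) with hθ
  have hθ0 : 0 < θ := lt_min (by norm_num) (by positivity)
  have hθ1 : θ ≤ 1 / 8 := min_le_left _ _
  have hθS : θ * (S + 1) ≤ η / 8 := by
    calc θ * (S + 1) ≤ η / (8 * (S + 1)) * (S + 1) := by gcongr; exact min_le_right _ _
      _ = η / 8 := by field_simp
  set R := 1 + 1 / θ with hR
  have hR1 : 1 ≤ R := by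
    have : 0 < 1 / θ := by positivity
    linarith
  have hR0 : 0 < R := by linarith
  obtain ⟨P, SP, hPc, hPl, hSP, hrem⟩ := h (η / (16 * R)) (by positivity)
  have hev := hPl.eventually (Metric.ball_mem_nhds _ (by positivity : 0 < η / 16))
  filter_upwards [hev, hrem, eventually_ge_atTop 1] with V h1 h2 h3
  obtain ⟨ri, rb⟩ := h2
  have hVp : 0 < V := by linarith
  rw [Real.dist_eq] at h1
  set Pm := V⁻¹ * ∫ v in (0 : ℝ)..V, ‖P v‖ ^ 2 with hPm
  set J := (∫ v in (0 : ℝ)..V, f v ^ 2) / V with hJ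
  set G := ∫ v in (0 : ℝ)..V, ‖((f v : ℝ) : ℂ) - P v‖ ^ 2 with hG
  have fi := hf V hVp.le
  have pi : IntervalIntegrable (fun v => ‖P v‖ ^ 2) volume 0 V := (hPc.norm.pow 2).intervalIntegrable _ _
  have par : ∀ x y z : ℝ, 0 ≤ x → 0 ≤ y → 0 ≤ z → x ≤ y + z → x ^ 2 ≤ (1 + θ) * y ^ 2 + R * z ^ 2 := by
    intro x y z hx hy hz h
    have e1 : x ^ 2 ≤ (y + z) ^ 2 := by gcongr
    have e2 : 2 * (y * z) ≤ θ * y ^ 2 + 1 / θ * z ^ 2 := by
      have e3 : θ * y ^ 2 + 1 / θ * z ^ 2 - 2 * (y * z) = (θ * y - z) ^ 2 / θ := by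
        field_simp
        ring
      have e4 : 0 ≤ (θ * y - z) ^ 2 / θ := by positivity
      linarith
    rw [hR]
    nlinarith
  have habs : ∀ v, ‖((f v : ℝ) : ℂ)‖ ^ 2 = f v ^ 2 := by
    intro v
    rw [Complex.norm_real, Real.norm_eq_abs, sq_abs]
  have hPmV : V * Pm = ∫ v in (0 : ℝ)..V, ‖P v‖ ^ 2 := by
    rw [hPm, ← mul_assoc, mul_inv_cancel₀ hVp.ne', one_mul]
  have hJV : V * J = ∫ v in (0 : ℝ)..V, f v ^ 2 := by rw [hJ]; field_simp
  have hup : V * J ≤ (1 + θ) * (V * Pm) + R * G := by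
    rw [hPmV, hG, hJV, ← intervalIntegral.integral_const_mul, ← intervalIntegral.integral_const_mul,
      ← intervalIntegral.integral_add (pi.const_mul _) (ri.const_mul _)]
    refine intervalIntegral.integral_mono_on hVp.le fi ((pi.const_mul _).add (ri.const_mul _)) fun v _ => ?_
    rw [← habs]
    refine par _ _ _ (norm_nonneg _) (norm_nonneg _) (norm_nonneg _) ?_
    have := norm_add_le (P v) (((f v : ℝ) : ℂ) - P v)
    rwa [add_sub_cancel] at this
  have hlo : V * Pm ≤ (1 + θ) * (V * J) + R * G := by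
    rw [hPmV, hG, hJV, ← intervalIntegral.integral_const_mul, ← intervalIntegral.integral_const_mul,
      ← intervalIntegral.integral_add (fi.const_mul _) (ri.const_mul _)]
    refine intervalIntegral.integral_mono_on hVp.le pi ((fi.const_mul _).add (ri.const_mul _)) fun v _ => ?_
    rw [← habs]
    refine par _ _ _ (norm_nonneg _) (norm_nonneg _) (norm_nonneg _) ?_
    have := norm_sub_le ((f v : ℝ) : ℂ) (((f v : ℝ) : ℂ) - P v)
    rwa [sub_sub_cancel] at this
  have hRG : R * G ≤ V * (η / 16) := by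
    calc R * G ≤ R * (η / (16 * R) * V) := by gcongr
      _ = V * (η / 16) := by field_simp
  have hup' : J ≤ (1 + θ) * Pm + η / 16 := by
    have : V * J ≤ V * ((1 + θ) * Pm + η / 16) := by linarith
    exact le_of_mul_le_mul_left this hVp
  have hlo' : Pm ≤ (1 + θ) * J + η / 16 := by
    have : V * Pm ≤ V * ((1 + θ) * J + η / 16) := by linarith
    exact le_of_mul_le_mul_left this hVp
  have hη16 : η / (16 * R) ≤ η / 16 := by
    apply div_le_div_of_nonneg_left hη.le (by norm_num)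
    linarith
  have hSP' := hSP.trans hη16
  rw [abs_le] at hSP'
  rw [abs_lt] at h1
  have hPm0 : 0 ≤ Pm := by
    rw [hPm]
    have : 0 ≤ ∫ v in (0 : ℝ)..V, ‖P v‖ ^ 2 := intervalIntegral.integral_nonneg hVp.le fun v _ => by positivity
    positivity
  have k1 : Pm ≤ S + η / 8 := by linarith [h1.2, hSP'.2]
  have k2 : S - η / 8 ≤ Pm := by linarith [h1.1, hSP'.1]
  have k3 : θ * Pm ≤ θ * (S + 1) + θ * η := by
    have : θ * Pm ≤ θ * (S + η / 8) := by gcongr
    nlinarith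
  have k4 : θ * η ≤ η / 8 := by nlinarith
  have k5 : J ≤ S + η / 2 := by nlinarith
  have k6 : θ * J ≤ η / 4 := by
    have : θ * J ≤ θ * (S + η / 2) := by gcongr
    nlinarith
  rw [Real.dist_eq, abs_lt]
  constructor <;> nlinarith

/-- the remainder -/
theorem rem_small (h : ZC) {ε : ℝ} (hε : 0 < ε) (N : ℝ) : ∃ U : ℝ, N ≤ U ∧ ∀ᶠ V : ℝ in atTop,
    IntervalIntegrable (fun v => ‖((fM v : ℝ) : ℂ) - PP (LU U) wc v‖ ^ 2) volume 0 V ∧
    ∫ v in (0 : ℝ)..V, ‖((fM v : ℝ) : ℂ) - PP (LU U) wc v‖ ^ 2 ≤ ε * V := by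
  have hS := (summable_iff h.1).1 h.2
  obtain ⟨C, κ0, hC, hκ0, hrem⟩ := rem_bound h.1 hadamard hS
  have heps := eps_tendsto hS
  have h1 : ∀ᶠ U in atTop, C * eps U < ε := by
    have h2 := heps.const_mul C
    rw [mul_zero] at h2
    exact h2.eventually (gt_mem_nhds hε)
  obtain ⟨U2, hU2⟩ := eventually_atTop.1 h1
  obtain ⟨n, hn⟩ := exists_nat_ge (max N (max U2 0))
  obtain ⟨U, δ, hnU, hδ, hgap⟩ := exists_gap n
  have hUN : N ≤ U := ((le_max_left _ _).trans hn).trans hnU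
  have hUU2 : U2 ≤ U := (((le_max_left _ _).trans (le_max_right _ _)).trans hn).trans hnU
  have hU0 : 0 ≤ U := (Nat.cast_nonneg n).trans hnU
  obtain ⟨A, hA, hremU⟩ := hrem U δ hU0 hδ hgap
  refine ⟨U, hUN, ?_⟩
  have hlimrem : Tendsto (fun V : ℝ => C / V + 3 * QU U V ^ 2 + C * (eps U +
      A * Real.exp (-(κ0 * V ^ 2 * δ ^ 2)))) atTop (𝓝 (0 + 3 * 0 ^ 2 + C * (eps U + A * 0))) := by
    refine Tendsto.add (Tendsto.add ?_ ?_) ?_
    · exact tendsto_const_nhds.div_atTop tendsto_id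
    · exact ((QU_tendsto U).pow 2).const_mul 3
    · refine Tendsto.const_mul _ (tendsto_const_nhds.add (Tendsto.const_mul _ ?_))
      refine Real.tendsto_exp_neg_atTop_nhds_zero.comp ?_
      have h3 : Tendsto (fun V : ℝ => V ^ 2) atTop atTop := tendsto_pow_atTop (by norm_num)
      have h4 := (h3.const_mul_atTop (by linarith : (0 : ℝ) < κ0)).atTop_mul_const
        (by positivity : 0 < δ ^ 2)
      exact h4
  have hlimval : 0 + 3 * (0 : ℝ) ^ 2 + C * (eps U + A * 0) < ε := by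
    have := hU2 U hUU2
    have e : 0 + 3 * (0 : ℝ) ^ 2 + C * (eps U + A * 0) = C * eps U := by ring
    rw [e]
    exact this
  filter_upwards [hlimrem.eventually (gt_mem_nhds hlimval), eventually_ge_atTop 1] with V hV1 hV3
  have hVp : 0 < V := by linarith
  obtain ⟨ri, rb⟩ := hremU V hV3
  refine ⟨(intervalIntegrable_iff_integrableOn_Ioc_of_le hVp.le).2 ri, ?_⟩
  rw [intervalIntegral.integral_of_le hVp.le]
  refine rb.trans ?_
  have : C + 3 * V * QU U V ^ 2 + C * V * (eps U + A * Real.exp (-(κ0 * V ^ 2 * δ ^ 2))) =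
      (C / V + 3 * QU U V ^ 2 + C * (eps U + A * Real.exp (-(κ0 * V ^ 2 * δ ^ 2)))) * V := by
    field_simp
  rw [this]
  gcongr

/-- finite sums over the ordinates -/
theorem sum_LU {c : ℝ → ℝ} (hc : ∀ γ, 0 ≤ c γ) (hs : Summable c) (h0 : ∀ γ ∉ Od, c γ = 0) {ε : ℝ} (hε : 0 < ε) :
    ∃ U0 : ℝ, ∀ U, U0 ≤ U → |∑ γ ∈ LU U, c γ - ∑' γ, c γ| ≤ ε := by
  classical
  obtain ⟨s, hsn⟩ := (hs.hasSum.eventually (lt_mem_nhds (by linarith : ∑' γ, c γ - ε < ∑' γ, c γ))).exists
  obtain ⟨U0, hU0⟩ : ∃ U0 : ℝ, ∀ γ ∈ s, |γ| ≤ U0 := by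
    refine ⟨∑ γ ∈ s, |γ|, fun γ hγ => ?_⟩
    exact Finset.single_le_sum (f := fun γ : ℝ => |γ|) (fun _ _ => abs_nonneg _) hγ
  refine ⟨U0, fun U hU => ?_⟩
  have h1 : ∑ γ ∈ LU U, c γ ≤ ∑' γ, c γ := hs.sum_le_tsum _ fun γ _ => hc γ
  have h2 : ∑ γ ∈ s, c γ ≤ ∑ γ ∈ LU U, c γ := by
    refine le_trans (le_of_eq ?_) (Finset.sum_le_sum_of_subset_of_nonneg
      (s := s.filter (fun γ => γ ∈ LU U)) (fun γ hγ => (Finset.mem_filter.1 hγ).2)
      (fun γ _ _ => hc γ))
    rw [Finset.sum_filter]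
    refine Finset.sum_congr rfl fun γ hγ => ?_
    split_ifs with h
    · rfl
    · exact h0 γ fun h2 => h (mem_LU.2 ⟨h2, (hU0 γ hγ).trans hU⟩)
  rw [abs_le]
  constructor <;> linarith

/-- the increments -/
noncomputable def gI (l v : ℝ) : ℝ := Real.exp (l / 2) * fM (v + l) - fM v

/-- their mean square -/
noncomputable def DD (l V : ℝ) : ℝ := ∫ v in (0 : ℝ)..V, gI l v ^ 2

theorem fM_ii {a c : ℝ} (ha : 0 ≤ a) (hc : a ≤ c) : IntervalIntegrable (fun v => fM v ^ 2) volume a c := by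
  rw [intervalIntegrable_iff_integrableOn_Ioc_of_le hc]
  have := JW_integrable (A := a) (L := c) ha
  refine this.congr (Eventually.of_forall fun v => ?_)
  exact (fM_sq v).symm

theorem fM_meas : Measurable fM := by
  unfold fM
  exact (Mx_meas.comp Real.measurable_exp).mul (by fun_prop)

theorem fM_shift {l V : ℝ} (hl : 0 ≤ l) (hV : 0 ≤ V) :
    IntervalIntegrable (fun v => fM (v + l) ^ 2) volume 0 V := by
  have h := (fM_ii (a := l) (c := V + l) hl (by linarith)).comp_add_right l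
  simpa using h

theorem gI_meas (l : ℝ) : Measurable (gI l) := by
  unfold gI
  exact ((fM_meas.comp (measurable_id.add_const l)).const_mul _).sub fM_meas

theorem gI_sq_le (l v : ℝ) : gI l v ^ 2 ≤ 2 * Real.exp l * fM (v + l) ^ 2 + 2 * fM v ^ 2 := by
  unfold gI
  have e := exp_half l
  rw [e]
  nlinarith [sq_nonneg (Real.exp (l / 2) * fM (v + l) + fM v)]

theorem gI_ii {l V : ℝ} (hl : 0 ≤ l) (hV : 0 ≤ V) : IntervalIntegrable (fun v => gI l v ^ 2) volume 0 V := by
  have h1 := ((fM_shift hl hV).const_mul (2 * Real.exp l)).add ((fM_ii le_rfl hV).const_mul 2)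
  refine h1.mono_fun' ((gI_meas l).pow_const 2).aestronglyMeasurable (Eventually.of_forall fun v => ?_)
  beta_reduce
  rw [Real.norm_eq_abs, abs_of_nonneg (sq_nonneg _)]
  exact gI_sq_le l v

/-- the approximation to the increments -/
noncomputable def wl (l γ : ℝ) : ℂ := wc γ * ((Real.exp (l / 2) : ℂ) * Complex.exp (Complex.I * γ * l) - 1)

theorem norm_wl (l γ : ℝ) : ‖wl l γ‖ ^ 2 = ‖wc γ‖ ^ 2 * qq γ l := by
  unfold wl
  rw [norm_mul, mul_pow]
  congr 1
  have e : Complex.I * γ * l = ((γ * l : ℝ) : ℂ) * Complex.I := by push_cast; ring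
  rw [e, Complex.exp_mul_I, ← Complex.normSq_eq_norm_sq, Complex.normSq_apply]
  have e2 : Complex.cos ((γ * l : ℝ) : ℂ) = ((Real.cos (γ * l) : ℝ) : ℂ) := (Complex.ofReal_cos _).symm
  have e3 : Complex.sin ((γ * l : ℝ) : ℂ) = ((Real.sin (γ * l) : ℝ) : ℂ) := (Complex.ofReal_sin _).symm
  rw [e2, e3]
  simp only [Complex.sub_re, Complex.mul_re, Complex.ofReal_re, Complex.ofReal_im, Complex.add_re,
    Complex.add_im, Complex.mul_im, Complex.I_re, Complex.I_im, Complex.sub_im, Complex.one_re, Complex.one_im]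
  unfold qq
  rw [exp_half l]
  have h := Real.sin_sq_add_cos_sq (γ * l)
  generalize Real.exp (l / 2) = E at *
  generalize Real.sin (γ * l) = s at *
  generalize Real.cos (γ * l) = c at *
  linear_combination E ^ 2 * h

theorem PP_wl (Z : Finset ℝ) (l v : ℝ) :
    PP Z (wl l) v = (Real.exp (l / 2) : ℂ) * PP Z wc (v + l) - PP Z wc v := by
  unfold PP wl
  rw [Finset.mul_sum, ← Finset.sum_sub_distrib]
  refine Finset.sum_congr rfl fun γ _ => ?_
  have e : Complex.exp (Complex.I * γ * ((v + l : ℝ) : ℂ)) =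
      Complex.exp (Complex.I * γ * l) * Complex.exp (Complex.I * γ * v) := by
    rw [← Complex.exp_add]
    congr 1
    push_cast
    ring
  rw [e]
  ring

/-- the coefficients -/
theorem coef_summable (hS : Summable fun γ => ‖w0 γ‖ ^ 2) (l : ℝ) : Summable fun γ => ‖w0 γ‖ ^ 2 * qq γ l :=
  Summable.of_nonneg_of_le (fun γ => mul_nonneg (by positivity) (qq_nonneg _ _))
    (fun γ => mul_le_mul_of_nonneg_left (qq_le' _ _) (by positivity)) (hS.mul_right (4 * Real.exp |l|))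

/-- **the mean square of the increments** -/
theorem DD_lim (h : ZC) {l : ℝ} (hl : 0 ≤ l) :
    Tendsto (fun V : ℝ => DD l V / V) atTop (𝓝 (∑' γ, ‖w0 γ‖ ^ 2 * qq γ l)) := by
  have hS := (summable_iff h.1).1 h.2
  have hSl := coef_summable hS l
  refine mean_of_approx (tsum_nonneg fun γ => mul_nonneg (by positivity) (qq_nonneg _ _))
    (fun V hV => gI_ii hl hV) fun ε hε => ?_
  obtain ⟨U0, hU0⟩ := sum_LU (c := fun γ => ‖w0 γ‖ ^ 2 * qq γ l)
    (fun γ => mul_nonneg (by positivity) (qq_nonneg _ _)) hSl (fun γ hγ => by rw [w0_not hγ]; simp) hε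
  set ε' := ε / (4 * Real.exp l + 2) with hε'
  have hden : 0 < 4 * Real.exp l + 2 := by positivity
  obtain ⟨U, hU, hrem⟩ := rem_small h (ε := ε') (by positivity) U0
  refine ⟨PP (LU U) (wl l), ∑ γ ∈ LU U, ‖wl l γ‖ ^ 2, PP_cont _ _, mean_PP _ _, ?_, ?_⟩
  · have : ∑ γ ∈ LU U, ‖wl l γ‖ ^ 2 = ∑ γ ∈ LU U, ‖w0 γ‖ ^ 2 * qq γ l :=
      Finset.sum_congr rfl fun γ hγ => by rw [norm_wl, w0_mem (mem_LU.1 hγ).1]
    rw [this]
    exact hU0 U hU
  have hadd : Tendsto (fun V : ℝ => V + l) atTop atTop := tendsto_atTop_add_const_right _ _ tendsto_id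
  filter_upwards [hrem, hadd.eventually hrem, eventually_ge_atTop 1, eventually_ge_atTop l] with V h1 h2 h3 h4
  have hV0 : 0 ≤ V := by linarith
  obtain ⟨i1, b1⟩ := h1
  obtain ⟨i2, b2⟩ := h2
  set r : ℝ → ℂ := fun v => ((fM v : ℝ) : ℂ) - PP (LU U) wc v with hr
  have hrm : Measurable r := (Complex.measurable_ofReal.comp fM_meas).sub (PP_cont _ _).measurable
  have i3 : IntervalIntegrable (fun v => ‖r (v + l)‖ ^ 2) volume 0 V := by
    have i4 : IntervalIntegrable (fun v => ‖r v‖ ^ 2) volume l (V + l) :=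
      i2.mono_set (by
        rw [uIcc_of_le (by linarith), uIcc_of_le (by linarith)]
        exact Icc_subset_Icc hl le_rfl)
    have := i4.comp_add_right l
    simpa using this
  have b3 : ∫ v in (0 : ℝ)..V, ‖r (v + l)‖ ^ 2 ≤ ε' * (V + l) := by
    have e := intervalIntegral.integral_comp_add_right (a := 0) (b := V) (fun v => ‖r v‖ ^ 2) l
    rw [e, zero_add]
    refine le_trans ?_ b2
    have i5 : IntervalIntegrable (fun v => ‖r v‖ ^ 2) volume 0 l :=
      i2.mono_set (by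
        rw [uIcc_of_le (by linarith), uIcc_of_le (by linarith)]
        exact Icc_subset_Icc le_rfl (by linarith))
    have i4 : IntervalIntegrable (fun v => ‖r v‖ ^ 2) volume l (V + l) :=
      i2.mono_set (by
        rw [uIcc_of_le (by linarith), uIcc_of_le (by linarith)]
        exact Icc_subset_Icc hl le_rfl)
    rw [← intervalIntegral.integral_add_adjacent_intervals i5 i4]
    have : 0 ≤ ∫ v in (0 : ℝ)..l, ‖r v‖ ^ 2 := intervalIntegral.integral_nonneg hl fun v _ => by positivity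
    linarith
  have hpt : ∀ v, ‖((gI l v : ℝ) : ℂ) - PP (LU U) (wl l) v‖ ^ 2 ≤
      2 * Real.exp l * ‖r (v + l)‖ ^ 2 + 2 * ‖r v‖ ^ 2 := by
    intro v
    have e : ((gI l v : ℝ) : ℂ) - PP (LU U) (wl l) v = (Real.exp (l / 2) : ℂ) * r (v + l) - r v := by
      rw [PP_wl, hr]
      unfold gI
      push_cast
      ring
    rw [e]
    have h5 := norm_sub_le ((Real.exp (l / 2) : ℂ) * r (v + l)) (r v)
    rw [norm_mul, Complex.norm_real, Real.norm_eq_abs, abs_of_pos (Real.exp_pos _)] at h5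
    have h6 : ‖(Real.exp (l / 2) : ℂ) * r (v + l) - r v‖ ^ 2 ≤
        (Real.exp (l / 2) * ‖r (v + l)‖ + ‖r v‖) ^ 2 := by gcongr
    refine h6.trans ?_
    rw [exp_half l]
    nlinarith [sq_nonneg (Real.exp (l / 2) * ‖r (v + l)‖ - ‖r v‖)]
  have i6 := ((i3.const_mul (2 * Real.exp l)).add (i1.const_mul 2))
  have i7 : IntervalIntegrable (fun v => ‖((gI l v : ℝ) : ℂ) - PP (LU U) (wl l) v‖ ^ 2) volume 0 V := by
    refine i6.mono_fun' ?_ (Eventually.of_forall fun v => ?_)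
    · exact ((((Complex.measurable_ofReal.comp (gI_meas l)).sub
        (PP_cont _ _).measurable).norm).pow_const 2).aestronglyMeasurable
    · beta_reduce
      rw [Real.norm_eq_abs, abs_of_nonneg (by positivity)]
      exact hpt v
  refine ⟨i7, ?_⟩
  refine (intervalIntegral.integral_mono_on hV0 i7 i6 fun v _ => hpt v).trans ?_
  rw [intervalIntegral.integral_add (i3.const_mul _) (i1.const_mul _),
    intervalIntegral.integral_const_mul, intervalIntegral.integral_const_mul]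
  have hE := Real.exp_pos l
  calc 2 * Real.exp l * (∫ v in (0 : ℝ)..V, ‖r (v + l)‖ ^ 2) + 2 * (∫ v in (0 : ℝ)..V, ‖r v‖ ^ 2) ≤
      2 * Real.exp l * (ε' * (V + l)) + 2 * (ε' * V) := by gcongr
    _ ≤ 2 * Real.exp l * (ε' * (V + V)) + 2 * (ε' * V) := by gcongr
    _ = ε' * (4 * Real.exp l + 2) * V := by ring
    _ = ε * V := by
      rw [hε']
      field_simp

/-- **Minkowski**: the increments control the function -/
theorem F_le_DD {l : ℝ} (hl : 0 < l) : ∃ C : ℝ, 0 ≤ C ∧ ∀ V : ℝ, 0 ≤ V → JW 0 V ≤ C * (1 + DD l V) := by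
  set k := Real.exp l - 1 with hk
  have hk0 : 0 < k := by
    have := Real.add_one_lt_exp hl.ne'
    linarith
  set θ := k / 2 with hθ
  have hθ0 : 0 < θ := by positivity
  set R := 1 + 1 / θ with hR
  have hR0 : 0 < R := by positivity
  set F : ℝ → ℝ := fun V => ∫ v in (0 : ℝ)..V, fM v ^ 2 with hF
  have hF0 : ∀ V, 0 ≤ V → 0 ≤ F V := fun V hV => intervalIntegral.integral_nonneg hV fun v _ => sq_nonneg _
  refine ⟨(Real.exp l * F l + R) / (k / 2), by have := hF0 l hl.le; positivity, fun V hV => ?_⟩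
  have hJ : JW 0 V = F V := by
    rw [JW_fM, hF]
    beta_reduce
    rw [intervalIntegral.integral_of_le hV]
  have hFm : F V ≤ F (V + l) := by
    have h1 := intervalIntegral.integral_add_adjacent_intervals (fM_ii le_rfl hV)
      (fM_ii hV (by linarith : V ≤ V + l))
    have h2 : 0 ≤ ∫ v in V..(V + l), fM v ^ 2 := intervalIntegral.integral_nonneg (by linarith) fun v _ => sq_nonneg _
    show (∫ v in (0 : ℝ)..V, fM v ^ 2) ≤ ∫ v in (0 : ℝ)..(V + l), fM v ^ 2
    linarith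
  have hsh : ∫ v in (0 : ℝ)..V, fM (v + l) ^ 2 = F (V + l) - F l := by
    have e := intervalIntegral.integral_comp_add_right (a := 0) (b := V) (fun v => fM v ^ 2) l
    rw [e, zero_add]
    have h1 := intervalIntegral.integral_add_adjacent_intervals (fM_ii le_rfl hl.le)
      (fM_ii hl.le (by linarith : l ≤ V + l))
    show _ = (∫ v in (0 : ℝ)..(V + l), fM v ^ 2) - ∫ v in (0 : ℝ)..l, fM v ^ 2
    linarith
  have hpt : ∀ v, Real.exp l * fM (v + l) ^ 2 ≤ (1 + θ) * fM v ^ 2 + R * gI l v ^ 2 := by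
    intro v
    have e : Real.exp l * fM (v + l) ^ 2 = (fM v + gI l v) ^ 2 := by
      unfold gI
      rw [exp_half l]
      ring
    rw [e]
    have e2 : 2 * (fM v * gI l v) ≤ θ * fM v ^ 2 + 1 / θ * gI l v ^ 2 := by
      have e3 : θ * fM v ^ 2 + 1 / θ * gI l v ^ 2 - 2 * (fM v * gI l v) = (θ * fM v - gI l v) ^ 2 / θ := by
        field_simp
        ring
      have e4 : 0 ≤ (θ * fM v - gI l v) ^ 2 / θ := by positivity
      linarith
    rw [hR]
    nlinarith
  have hint := intervalIntegral.integral_mono_on hV ((fM_shift hl.le hV).const_mul (Real.exp l))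
    (((fM_ii le_rfl hV).const_mul (1 + θ)).add ((gI_ii hl.le hV).const_mul R)) fun v _ => hpt v
  rw [intervalIntegral.integral_add ((fM_ii le_rfl hV).const_mul _) ((gI_ii hl.le hV).const_mul _),
    intervalIntegral.integral_const_mul, intervalIntegral.integral_const_mul,
    intervalIntegral.integral_const_mul, hsh] at hint
  have hint' : Real.exp l * (F (V + l) - F l) ≤ (1 + θ) * F V + R * DD l V := hint
  have hFV := hF0 V hV
  have hFl := hF0 l hl.le
  have hFVl := hF0 (V + l) (by linarith)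
  have hE : Real.exp l = k + 1 := by rw [hk]; ring
  have hD0 : 0 ≤ DD l V := intervalIntegral.integral_nonneg hV fun v _ => sq_nonneg _
  have h1 : k / 2 * F V ≤ Real.exp l * F l + R * DD l V := by
    have h2 : (1 + θ) * F V ≤ (1 + θ) * F (V + l) := by gcongr
    have h3 : k / 2 * F V ≤ k / 2 * F (V + l) := by gcongr
    rw [hE] at hint' ⊢
    rw [hθ] at hint' h2
    nlinarith
  rw [hJ, div_mul_eq_mul_div, le_div_iff₀ (by positivity)]
  have hEl := Real.exp_pos l
  calc F V * (k / 2) = k / 2 * F V := by ring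
    _ ≤ Real.exp l * F l + R * DD l V := h1
    _ ≤ (Real.exp l * F l + R) * (1 + DD l V) := by
      have h4 : 0 ≤ Real.exp l * F l * DD l V := by positivity
      nlinarith

end Pool.Agent.J6H39.IC
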