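import Pool.Agent.J6H39.IC.Zer

/-! Project IC: the final theorems. -/

set_option autoImplicit false

open Filter Topology Set MeasureTheory

namespace Pool.Agent.J6H39.IC

open Pool.Agent.J6H39.ML (fM w0 Od NT RHS ZC im_range comp_im summable_iff ZC_of_freq weak_iff window_top)
open Pool.Agent.H295R2 (JW JW_nonneg)
open Pool.Agent.W120.WM (msq msq_eq)

/-! upper bounds -/

theorem qq_up {γ l κ : ℝ} (hl : 0 ≤ l) (hl1 : l ≤ 1) (hlκ : l ≤ κ) (hκ : 0 < κ) :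
    qq γ l ≤ 68 * (γ ^ 2 + 1 / 4) / ((κ⁻¹) ^ 2 + γ ^ 2) := by
  rw [qq_eq]
  have h1 : Real.exp (l / 2) ≤ 2 := by
    have h2 : Real.exp (l / 2) ≤ Real.exp (1 / 2) := Real.exp_le_exp.2 (by linarith)
    have h3 : Real.exp (1 / 2) ^ 2 = Real.exp 1 := by
      rw [← Real.exp_nat_mul]
      norm_num
    have h4 := Real.exp_one_lt_d9
    have h5 := Real.exp_pos (1 / 2)
    nlinarith
  have h2 : (Real.exp (l / 2) - 1) ^ 2 ≤ l ^ 2 := by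
    have h3 : |Real.exp (l / 2) - 1| ≤ 2 * |l / 2| := by
      refine Real.abs_exp_sub_one_le ?_
      rw [abs_of_nonneg (by positivity)]
      linarith
    have h4 : 2 * |l / 2| = l := by
      rw [abs_of_nonneg (by positivity)]
      ring
    rw [h4] at h3
    rw [← sq_abs]
    gcongr
  have h3 := sq2_le (γ * l)
  have h4 := sq2_nonneg (γ * l)
  have h5 : 0 < 1 + (γ * l) ^ 2 := by positivity
  have h6 : (Real.exp (l / 2) - 1) ^ 2 + Real.exp (l / 2) * ((γ * l) ^ 2 * sq2 (γ * l)) ≤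
      l ^ 2 + 2 * ((γ * l) ^ 2 * (8 * (1 + (γ * l) ^ 2)⁻¹)) := by gcongr
  refine h6.trans ?_
  have h7 : l ^ 2 + 2 * ((γ * l) ^ 2 * (8 * (1 + (γ * l) ^ 2)⁻¹)) =
      l ^ 2 * (1 + γ ^ 2 * l ^ 2 + 16 * γ ^ 2) / (1 + γ ^ 2 * l ^ 2) := by
    rw [mul_pow] at *
    field_simp
    ring
  rw [h7]
  have h8 : 1 + γ ^ 2 * l ^ 2 + 16 * γ ^ 2 ≤ 68 * (γ ^ 2 + 1 / 4) := by
    have : γ ^ 2 * l ^ 2 ≤ γ ^ 2 * 1 := by
      gcongr
      nlinarith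
    nlinarith [sq_nonneg γ]
  have h9 : 0 < 1 + γ ^ 2 * l ^ 2 := by positivity
  have h10 : (κ⁻¹) ^ 2 + γ ^ 2 = (1 + γ ^ 2 * κ ^ 2) / κ ^ 2 := by field_simp
  have h11 : l ^ 2 ≤ κ ^ 2 := by gcongr
  rw [h10, div_div_eq_mul_div, div_le_div_iff₀ h9 (by positivity)]
  have h12 : l ^ 2 * (1 + γ ^ 2 * κ ^ 2) ≤ κ ^ 2 * (1 + γ ^ 2 * l ^ 2) := by nlinarith
  have h13 : 0 ≤ 1 + γ ^ 2 * l ^ 2 + 16 * γ ^ 2 := by positivity
  calc l ^ 2 * (1 + γ ^ 2 * l ^ 2 + 16 * γ ^ 2) * (1 + γ ^ 2 * κ ^ 2) =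
      (1 + γ ^ 2 * l ^ 2 + 16 * γ ^ 2) * (l ^ 2 * (1 + γ ^ 2 * κ ^ 2)) := by ring
    _ ≤ (1 + γ ^ 2 * l ^ 2 + 16 * γ ^ 2) * (κ ^ 2 * (1 + γ ^ 2 * l ^ 2)) := by gcongr
    _ ≤ 68 * (γ ^ 2 + 1 / 4) * (κ ^ 2 * (1 + γ ^ 2 * l ^ 2)) := by gcongr
    _ = _ := by ring

/-- dyadic summation -/
theorem dyadic {ι : Type*} {g a : ι → ℝ} (ha : ∀ i, 0 ≤ a i) {C δ : ℝ} (hC : 0 ≤ C) (hδ : 0 < δ)
    (h : ∀ T : ℝ, 1 ≤ T → ∀ S : Finset ι, (∀ i ∈ S, |g i| ≤ T) → ∑ i ∈ S, a i ≤ C * T ^ (2 - δ))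
    {s : ℝ} (hs : 1 ≤ s) (S : Finset ι) :
    ∑ i ∈ S, a i / (s ^ 2 + g i ^ 2) ≤ 4 * C / (1 - (1 / 2 : ℝ) ^ δ) * s ^ (-δ) := by
  classical
  have hs0 : 0 < s := by linarith
  -- a bound for the ordinates
  obtain ⟨K, hK⟩ : ∃ K : ℕ, ∀ i ∈ S, |g i| ≤ 2 ^ K * s := by
    obtain ⟨K, hK⟩ := exists_nat_ge (∑ i ∈ S, |g i|)
    refine ⟨K, fun i hi => ?_⟩
    have h1 : |g i| ≤ K := (Finset.single_le_sum (f := fun i => |g i|) (fun _ _ => abs_nonneg _) hi).trans hK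
    have h2 : (K : ℝ) ≤ 2 ^ K := by exact_mod_cast Nat.lt_two_pow_self.le
    have h3 : (0 : ℝ) < 2 ^ K := by positivity
    nlinarith
  have hpt : ∀ i ∈ S, a i / (s ^ 2 + g i ^ 2) ≤
      ∑ k ∈ Finset.range (K + 1), if |g i| ≤ 2 ^ k * s then a i * (4 * (s⁻¹) ^ 2 * (1 / 4 : ℝ) ^ k) else 0 := by
    intro i hi
    have hex : ∃ k : ℕ, |g i| ≤ 2 ^ k * s := ⟨K, hK i hi⟩
    set k := Nat.find hex with hk
    have hk1 : |g i| ≤ 2 ^ k * s := Nat.find_spec hex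
    have hkK : k ≤ K := Nat.find_min' hex (hK i hi)
    have hai := ha i
    have hterm : ∀ k : ℕ, 0 ≤ (if |g i| ≤ 2 ^ k * s then a i * (4 * (s⁻¹) ^ 2 * (1 / 4 : ℝ) ^ k) else 0) := by
      intro k
      split_ifs
      · positivity
      · exact le_rfl
    refine le_trans ?_ (Finset.single_le_sum (f := fun k =>
      if |g i| ≤ 2 ^ k * s then a i * (4 * (s⁻¹) ^ 2 * (1 / 4 : ℝ) ^ k) else 0)
      (fun k _ => hterm k) (Finset.mem_range.2 (Nat.lt_succ_of_le hkK)))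
    beta_reduce
    rw [if_pos hk1, div_eq_mul_inv]
    refine mul_le_mul_of_nonneg_left ?_ hai
    have h2 : 0 < s ^ 2 + g i ^ 2 := by positivity
    rcases Nat.eq_zero_or_pos k with h0 | h0
    · rw [h0, pow_zero, mul_one]
      have h3 : (s ^ 2 + g i ^ 2)⁻¹ ≤ (s ^ 2)⁻¹ := by
        apply inv_anti₀ (by positivity)
        nlinarith [sq_nonneg (g i)]
      rw [inv_pow]
      have : 0 < (s ^ 2)⁻¹ := by positivity
      linarith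
    · have h3 : ¬ |g i| ≤ 2 ^ (k - 1) * s := Nat.find_min hex (by omega)
      rw [not_le] at h3
      have h4 : (2 ^ (k - 1) * s) ^ 2 ≤ g i ^ 2 := by
        rw [← sq_abs (g i)]
        gcongr
      have h5 : ((2 : ℝ) ^ (k - 1)) ^ 2 = 4 ^ k / 4 := by
        obtain ⟨m, hm⟩ := Nat.exists_eq_add_of_lt h0
        rw [zero_add] at hm
        have e0 : (4 : ℝ) ^ (m + 1) = 4 ^ m * 4 := pow_succ _ _
        rw [hm, Nat.add_sub_cancel, ← pow_mul, mul_comm m 2, pow_mul, e0]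
        norm_num
      rw [mul_pow, h5] at h4
      have h6 : 4 ^ k / 4 * s ^ 2 ≤ s ^ 2 + g i ^ 2 := by nlinarith [sq_nonneg s]
      have h7 : (0 : ℝ) < 4 ^ k / 4 * s ^ 2 := by positivity
      calc (s ^ 2 + g i ^ 2)⁻¹ ≤ (4 ^ k / 4 * s ^ 2)⁻¹ := inv_anti₀ h7 h6
        _ = 4 * (s⁻¹) ^ 2 * (1 / 4 : ℝ) ^ k := by
          have e4 : (1 / 4 : ℝ) ^ k = (4 ^ k)⁻¹ := by rw [one_div, inv_pow]
          rw [e4, mul_inv, div_eq_mul_inv, mul_inv, inv_inv, inv_pow]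
          ring
  refine (Finset.sum_le_sum hpt).trans ?_
  rw [Finset.sum_comm]
  have hk : ∀ k ∈ Finset.range (K + 1),
      ∑ i ∈ S, (if |g i| ≤ 2 ^ k * s then a i * (4 * (s⁻¹) ^ 2 * (1 / 4 : ℝ) ^ k) else 0) ≤
      4 * C * s ^ (-δ) * ((1 / 2 : ℝ) ^ δ) ^ k := by
    intro k _
    rw [← Finset.sum_filter, ← Finset.sum_mul]
    have h2k : (1 : ℝ) ≤ 2 ^ k := one_le_pow₀ (by norm_num)
    have h1 := h (2 ^ k * s) (by nlinarith) (S.filter fun i => |g i| ≤ 2 ^ k * s)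
      (fun i hi => (Finset.mem_filter.1 hi).2)
    have h2 : (2 ^ k * s) ^ (2 - δ) * (4 * (s⁻¹) ^ 2 * (1 / 4 : ℝ) ^ k) =
        4 * s ^ (-δ) * ((1 / 2 : ℝ) ^ δ) ^ k := by
      rw [Real.mul_rpow (by positivity) hs0.le, Real.rpow_sub (by positivity : (0 : ℝ) < 2 ^ k),
        Real.rpow_sub hs0, Real.rpow_neg hs0.le]
      have e1 : ((2 : ℝ) ^ k) ^ (2 : ℝ) = 4 ^ k := by
        rw [← Real.rpow_natCast, ← Real.rpow_mul (by norm_num), mul_comm, Real.rpow_mul (by norm_num),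
          Real.rpow_natCast]
        norm_num
      have e2 : ((2 : ℝ) ^ k) ^ δ = (((1 / 2 : ℝ) ^ δ) ^ k)⁻¹ := by
        rw [← Real.rpow_natCast, ← Real.rpow_mul (by norm_num), mul_comm, Real.rpow_mul (by norm_num),
          Real.rpow_natCast, ← inv_pow, ← Real.inv_rpow (by norm_num)]
        norm_num
      have e3 : s ^ (2 : ℝ) = s ^ 2 := by
        rw [← Real.rpow_natCast]
        norm_num
      rw [e1, e2, e3]
      have h3 : 0 < (1 / 2 : ℝ) ^ δ := by positivity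
      have h4 : 0 < s ^ δ := by positivity
      have e4 : (1 / 4 : ℝ) ^ k = (4 ^ k)⁻¹ := by rw [one_div, inv_pow]
      have e5 : (4 : ℝ) ^ k ≠ 0 := by positivity
      rw [e4]
      field_simp
    calc (∑ i ∈ S with |g i| ≤ 2 ^ k * s, a i) * (4 * (s⁻¹) ^ 2 * (1 / 4 : ℝ) ^ k) ≤
        C * (2 ^ k * s) ^ (2 - δ) * (4 * (s⁻¹) ^ 2 * (1 / 4 : ℝ) ^ k) := by gcongr
      _ = C * ((2 ^ k * s) ^ (2 - δ) * (4 * (s⁻¹) ^ 2 * (1 / 4 : ℝ) ^ k)) := by ring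
      _ = _ := by rw [h2]; ring
  refine (Finset.sum_le_sum hk).trans ?_
  rw [← Finset.mul_sum]
  have hr0 : 0 ≤ (1 / 2 : ℝ) ^ δ := by positivity
  have hr1 : (1 / 2 : ℝ) ^ δ < 1 := Real.rpow_lt_one (by norm_num) (by norm_num) hδ
  have hg : ∑ k ∈ Finset.range (K + 1), ((1 / 2 : ℝ) ^ δ) ^ k ≤ (1 - (1 / 2 : ℝ) ^ δ)⁻¹ := by
    rw [← tsum_geometric_of_lt_one hr0 hr1]
    exact (summable_geometric_of_lt_one hr0 hr1).sum_le_tsum _ fun k _ => by positivity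
  have hsd : 0 < s ^ (-δ) := by positivity
  calc 4 * C * s ^ (-δ) * ∑ k ∈ Finset.range (K + 1), ((1 / 2 : ℝ) ^ δ) ^ k ≤
      4 * C * s ^ (-δ) * (1 - (1 / 2 : ℝ) ^ δ)⁻¹ := by gcongr
    _ = _ := by rw [div_eq_mul_inv]; ring

end Pool.Agent.J6H39.IC
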