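import Pool.Agent.J6H39.IC.T3

/-! Project IC: a Tauberian theorem, part 3: from the counting function to the Stieltjes transform. -/

set_option autoImplicit false

open Filter Topology Set MeasureTheory

namespace Pool.Agent.J6H39.IC

variable {ι : Type*} {g b : ι → ℝ}

/-- the kernel -/
noncomputable def KK (x : ℝ) : ℝ := 2 * x / (1 + x ^ 2) ^ 2

theorem KK_deriv (x : ℝ) : HasDerivAt (fun x : ℝ => -(1 + x ^ 2)⁻¹) (KK x) x := by
  have h0 : (1 : ℝ) + x ^ 2 ≠ 0 := by positivity
  have h1 : HasDerivAt (fun x : ℝ => 1 + x ^ 2) (2 * x) x := by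
    have := (hasDerivAt_pow 2 x).const_add 1
    simpa using this
  have h2 := (h1.inv h0).neg
  refine h2.congr_deriv ?_
  unfold KK
  ring

theorem inv_lim : Tendsto (fun x : ℝ => -(1 + x ^ 2)⁻¹) atTop (𝓝 0) := by
  have h1 : Tendsto (fun x : ℝ => 1 + x ^ 2) atTop atTop :=
    tendsto_atTop_add_const_left _ _ (tendsto_pow_atTop (by norm_num))
  have := (tendsto_inv_atTop_zero.comp h1).neg
  rw [neg_zero] at this
  exact this

theorem KK_nonneg {x : ℝ} (hx : 0 ≤ x) : 0 ≤ KK x := by
  unfold KK
  positivity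

theorem KK_int {u : ℝ} (hu : 0 ≤ u) : IntegrableOn KK (Ioi u) ∧ ∫ x in Ioi u, KK x = (1 + u ^ 2)⁻¹ := by
  have h1 : IntegrableOn KK (Ioi u) := integrableOn_Ioi_deriv_of_nonneg' (fun x _ => KK_deriv x)
    (fun x hx => KK_nonneg (hu.trans (le_of_lt hx))) inv_lim
  refine ⟨h1, ?_⟩
  rw [integral_Ioi_of_hasDerivAt_of_tendsto' (fun x _ => KK_deriv x) h1 inv_lim]
  ring

theorem atan_deriv (x : ℝ) : HasDerivAt (fun x : ℝ => Real.arctan x - x * (1 + x ^ 2)⁻¹) (x * KK x) x := by
  have h0 : (1 : ℝ) + x ^ 2 ≠ 0 := by positivity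
  have h1 := KK_deriv x
  have h2 := (hasDerivAt_id x).mul h1
  have h3 := (Real.hasDerivAt_arctan x).add h2
  refine (h3.congr_deriv ?_).congr_of_eventuallyEq (Eventually.of_forall fun y => ?_)
  · simp only [id]
    field_simp
    ring
  · simp only [id, Pi.add_apply, Pi.mul_apply]
    ring

theorem xK_int : IntegrableOn (fun x => x * KK x) (Ioi 0) ∧ ∫ x in Ioi (0 : ℝ), x * KK x = Real.pi / 2 := by
  have hlim : Tendsto (fun x : ℝ => Real.arctan x - x * (1 + x ^ 2)⁻¹) atTop (𝓝 (Real.pi / 2)) := by
    have h1 : Tendsto (fun x : ℝ => x * (1 + x ^ 2)⁻¹) atTop (𝓝 0) := by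
      refine squeeze_zero' (g := fun x : ℝ => x⁻¹) ?_ ?_ tendsto_inv_atTop_zero
      · filter_upwards [eventually_ge_atTop 0] with x hx
        positivity
      · filter_upwards [eventually_gt_atTop 0] with x hx
        rw [← div_eq_mul_inv, div_le_iff₀ (by positivity), inv_mul_eq_div, le_div_iff₀ hx]
        nlinarith
    have h2 := (Real.tendsto_arctan_atTop.mono_right nhdsWithin_le_nhds).sub h1
    rw [sub_zero] at h2
    exact h2
  have h1 : IntegrableOn (fun x => x * KK x) (Ioi 0) :=
    integrableOn_Ioi_deriv_of_nonneg' (fun x _ => atan_deriv x)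
      (fun x hx => mul_nonneg (le_of_lt hx) (KK_nonneg (le_of_lt hx))) hlim
  refine ⟨h1, ?_⟩
  rw [integral_Ioi_of_hasDerivAt_of_tendsto' (fun x _ => atan_deriv x) h1 hlim]
  simp

/-- the transform as an average of the counting function -/
theorem sg_eq [Countable ι] (hb : ∀ i, 0 ≤ b i) (hsum : Summable b) {s : ℝ} (hs : 1 ≤ s) :
    s * sg g b s = ∫ x in Ioi (0 : ℝ), JJ g b (s * x) / s * KK x := by
  have hs0 : 0 < s := by linarith
  set F : ι → ℝ → ℝ := fun i x => (if |g i| ≤ s * x then b i * (g i ^ 2 + 1 / 4) else 0) / s * KK x with hF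
  have hFi : ∀ i, Integrable (F i) (volume.restrict (Ioi 0)) ∧
      ∫ x in Ioi (0 : ℝ), F i x = s * wt g b s i := by
    intro i
    set u := |g i| / s with hu
    have hu0 : 0 ≤ u := by positivity
    have e : ∀ x, F i x = (Ici u).indicator (fun x => b i * (g i ^ 2 + 1 / 4) / s * KK x) x := by
      intro x
      rw [hF]
      beta_reduce
      by_cases h : |g i| ≤ s * x
      · have : x ∈ Ici u := by
          rw [mem_Ici, hu, div_le_iff₀ hs0, mul_comm x s]
          exact h
        rw [if_pos h, indicator_of_mem this]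
      · have : x ∉ Ici u := by
          rw [mem_Ici, hu, div_le_iff₀ hs0, mul_comm x s]
          exact h
        rw [if_neg h, indicator_of_notMem this, zero_div, zero_mul]
    have hFe : F i = (Ici u).indicator (fun x => b i * (g i ^ 2 + 1 / 4) / s * KK x) := funext e
    obtain ⟨k1, k2⟩ := KK_int hu0
    have hset : (volume.restrict (Ioi 0)).restrict (Ici u) = volume.restrict (Ioi u) := by
      rw [Measure.restrict_restrict measurableSet_Ici]
      refine Measure.restrict_congr_set ?_
      rcases hu0.eq_or_lt with h | h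
      · rw [← h]
        have : Ici (0 : ℝ) ∩ Ioi 0 = Ioi 0 := inter_eq_right.2 Ioi_subset_Ici_self
        rw [this]
      · have : Ici u ∩ Ioi 0 = Ici u := inter_eq_left.2 fun x hx => lt_of_lt_of_le h hx
        rw [this]
        exact Ioi_ae_eq_Ici.symm
    constructor
    · rw [hFe, integrable_indicator_iff measurableSet_Ici, IntegrableOn, hset]
      exact k1.const_mul _
    · rw [hFe, integral_indicator measurableSet_Ici, hset, integral_const_mul, k2]
      unfold wt
      rw [hu, div_pow, sq_abs]
      have : (1 : ℝ) + g i ^ 2 / s ^ 2 ≠ 0 := by positivity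
      field_simp
  have hnn : ∀ i, ∀ x ∈ Ioi (0 : ℝ), 0 ≤ F i x := by
    intro i x hx
    rw [hF]
    have hbi := hb i
    have := KK_nonneg (le_of_lt hx)
    beta_reduce
    refine mul_nonneg (div_nonneg ?_ hs0.le) this
    split_ifs
    · positivity
    · exact le_rfl
  have h1 := hasSum_integral_of_summable_integral_norm (μ := volume.restrict (Ioi (0 : ℝ))) (F := F)
    (fun i => (hFi i).1) (by
      have : (fun i => ∫ x in Ioi (0 : ℝ), ‖F i x‖) = fun i => s * wt g b s i := by
        funext i
        rw [← (hFi i).2]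
        refine setIntegral_congr_fun measurableSet_Ioi fun x hx => ?_
        beta_reduce
        rw [Real.norm_eq_abs, abs_of_nonneg (hnn i x hx)]
      rw [this]
      exact (wt_summable hb hsum hs).mul_left s)
  have h2 : ∑' i, ∫ x in Ioi (0 : ℝ), F i x = s * sg g b s := by
    unfold sg
    rw [← tsum_mul_left]
    exact tsum_congr fun i => (hFi i).2
  rw [← h2, h1.tsum_eq]
  congr 1
  funext x
  unfold JJ
  rw [hF]
  beta_reduce
  rw [tsum_mul_right, tsum_div_const]

theorem JJ_mono (hb : ∀ i, 0 ≤ b i) (hsum : Summable b) {T T' : ℝ} (h : T ≤ T') : JJ g b T ≤ JJ g b T' := by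
  unfold JJ
  refine (JJ_summable hb hsum T).tsum_le_tsum (fun i => ?_) (JJ_summable hb hsum T')
  have hbi := hb i
  split_ifs with h1 h2
  · exact le_rfl
  · exact absurd (h1.trans h) h2
  · positivity
  · exact le_rfl

/-- **(i) implies (ii)** -/
theorem sg_of_JJ [Countable ι] (hb : ∀ i, 0 ≤ b i) (hsum : Summable b) {A : ℝ}
    (h : Tendsto (fun T => JJ g b T / T) atTop (𝓝 (2 * A))) :
    Tendsto (fun s => s * sg g b s) atTop (𝓝 (Real.pi * A)) := by
  -- the linear bound
  obtain ⟨C, hC, hbd⟩ : ∃ C : ℝ, 0 ≤ C ∧ ∀ T : ℝ, 0 ≤ T → JJ g b T ≤ C * (T + 1) := by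
    have h1 := h.eventually (gt_mem_nhds (lt_add_one (2 * A)))
    obtain ⟨T0, hT0⟩ := eventually_atTop.1 h1
    set T1 := max T0 1 with hT1
    refine ⟨|2 * A + 1| + JJ g b T1, add_nonneg (abs_nonneg _) (JJ_nonneg hb _), fun T hT => ?_⟩
    have hJ1 := JJ_nonneg (g := g) hb T1
    rcases le_or_gt T T1 with h2 | h2
    · have h3 := JJ_mono (g := g) hb hsum h2
      have h4 : 0 ≤ |2 * A + 1| := abs_nonneg _
      nlinarith
    · have hT1' : 1 ≤ T1 := le_max_right _ _
      have h3 := hT0 T ((le_max_left _ _).trans h2.le)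
      rw [div_lt_iff₀ (by linarith)] at h3
      have h4 : 2 * A + 1 ≤ |2 * A + 1| := le_abs_self _
      calc JJ g b T ≤ (2 * A + 1) * T := h3.le
        _ ≤ |2 * A + 1| * T := by gcongr
        _ ≤ (|2 * A + 1| + JJ g b T1) * (T + 1) := by
          have h5 : 0 ≤ |2 * A + 1| := abs_nonneg _
          nlinarith [mul_nonneg hJ1 hT]
  have hlim : Tendsto (fun s => ∫ x in Ioi (0 : ℝ), JJ g b (s * x) / s * KK x) atTop
      (𝓝 (∫ x in Ioi (0 : ℝ), 2 * A * (x * KK x))) := by
    refine tendsto_integral_filter_of_dominated_convergence (fun x => C * (3 * (1 + x ^ 2)⁻¹)) ?_ ?_ ?_ ?_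
    · refine Eventually.of_forall fun s => ?_
      refine AEStronglyMeasurable.mul ?_ ?_
      · refine (Measurable.div_const ?_ _).aestronglyMeasurable
        by_cases hs : 0 ≤ s
        · have : Monotone fun x => JJ g b (s * x) := fun x y hxy =>
            JJ_mono hb hsum (mul_le_mul_of_nonneg_left hxy hs)
          exact this.measurable
        · have : Antitone fun x => JJ g b (s * x) := fun x y hxy =>
            JJ_mono hb hsum (mul_le_mul_of_nonpos_left hxy (not_le.1 hs).le)
          exact this.measurable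
      · refine Continuous.aestronglyMeasurable ?_
        unfold KK
        exact Continuous.div (by fun_prop) (by fun_prop) fun x => by positivity
    · filter_upwards [eventually_ge_atTop 1] with s hs
      refine (ae_restrict_iff' measurableSet_Ioi).2 (Eventually.of_forall fun x hx => ?_)
      have hx0 : 0 < x := hx
      have hs0 : 0 < s := by linarith
      have h1 := hbd (s * x) (by positivity)
      have h2 := KK_nonneg hx0.le
      have h3 := JJ_nonneg (g := g) hb (s * x)
      rw [Real.norm_eq_abs, abs_of_nonneg (by positivity)]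
      have h4 : JJ g b (s * x) / s ≤ C * (x + 1) := by
        rw [div_le_iff₀ hs0]
        refine h1.trans ?_
        have : s * x + 1 ≤ (x + 1) * s := by nlinarith
        calc C * (s * x + 1) ≤ C * ((x + 1) * s) := by gcongr
          _ = _ := by ring
      calc JJ g b (s * x) / s * KK x ≤ C * (x + 1) * KK x := by gcongr
        _ ≤ C * (3 * (1 + x ^ 2)⁻¹) := by
          rw [mul_assoc]
          refine mul_le_mul_of_nonneg_left ?_ hC
          unfold KK
          rw [← div_eq_mul_inv, mul_div_assoc', div_le_div_iff₀ (by positivity) (by positivity)]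
          have h5 : (x + 1) * (2 * x) ≤ 3 * (1 + x ^ 2) := by nlinarith [sq_nonneg (x - 1)]
          calc (x + 1) * (2 * x) * (1 + x ^ 2) ≤ 3 * (1 + x ^ 2) * (1 + x ^ 2) := by gcongr
            _ = _ := by ring
    · exact ((inv_int.const_mul 3).const_mul C).integrableOn
    · refine (ae_restrict_iff' measurableSet_Ioi).2 (Eventually.of_forall fun x hx => ?_)
      have hx0 : 0 < x := hx
      have h1 : Tendsto (fun s : ℝ => s * x) atTop atTop := tendsto_id.atTop_mul_const hx0
      have h2 := ((h.comp h1).mul_const x).mul_const (KK x)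
      have e : 2 * A * x * KK x = 2 * A * (x * KK x) := by ring
      rw [e] at h2
      refine h2.congr' ?_
      filter_upwards [eventually_gt_atTop 0] with s hs
      simp only [Function.comp]
      field_simp
  rw [integral_const_mul, xK_int.2] at hlim
  have e : 2 * A * (Real.pi / 2) = Real.pi * A := by ring
  rw [e] at hlim
  refine hlim.congr' ?_
  filter_upwards [eventually_ge_atTop 1] with s hs
  exact (sg_eq hb hsum hs).symm

end Pool.Agent.J6H39.IC
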