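import Mathlib

/-! Project IC: a Tauberian theorem, part 1: from `∑ b (γ² + 1/4) / (s² + γ²)` to the counting function. -/

set_option autoImplicit false

open Filter Topology Set MeasureTheory

namespace Pool.Agent.J6H39.IC

variable {ι : Type*} {g b : ι → ℝ}

/-- the weights -/
noncomputable def wt (g b : ι → ℝ) (s : ℝ) (i : ι) : ℝ := b i * (g i ^ 2 + 1 / 4) / (s ^ 2 + g i ^ 2)

/-- the Stieltjes transform -/
noncomputable def sg (g b : ι → ℝ) (s : ℝ) : ℝ := ∑' i, wt g b s i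

/-- the functional -/
noncomputable def Lam (g b : ι → ℝ) (s : ℝ) (f : ℝ → ℝ) : ℝ :=
  s * ∑' i, wt g b s i * f (g i ^ 2 / (s ^ 2 + g i ^ 2))

/-- the limit functional -/
noncomputable def II (f : ℝ → ℝ) : ℝ := ∫ x : ℝ, f (x ^ 2 / (1 + x ^ 2)) * (1 + x ^ 2)⁻¹

theorem wt_nonneg (hb : ∀ i, 0 ≤ b i) (s : ℝ) (i : ι) : 0 ≤ wt g b s i := by
  unfold wt
  have := hb i
  positivity

theorem wt_le (hb : ∀ i, 0 ≤ b i) {s : ℝ} (hs : 1 ≤ s) (i : ι) : wt g b s i ≤ b i := by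
  unfold wt
  rw [div_le_iff₀ (by positivity)]
  refine mul_le_mul_of_nonneg_left ?_ (hb i)
  nlinarith

theorem wt_summable (hb : ∀ i, 0 ≤ b i) (hsum : Summable b) {s : ℝ} (hs : 1 ≤ s) :
    Summable (wt g b s) :=
  Summable.of_nonneg_of_le (wt_nonneg hb s) (wt_le hb hs) hsum

theorem yy_mem {s : ℝ} (hs : 1 ≤ s) (x : ℝ) : x ^ 2 / (s ^ 2 + x ^ 2) ∈ Icc (0 : ℝ) 1 := by
  have h0 : 0 < s ^ 2 + x ^ 2 := by positivity
  refine ⟨by positivity, ?_⟩
  rw [div_le_one h0]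
  have : 0 ≤ s ^ 2 := sq_nonneg s
  linarith

theorem lam_summable (hb : ∀ i, 0 ≤ b i) (hsum : Summable b) {s : ℝ} (hs : 1 ≤ s) {f : ℝ → ℝ} {M : ℝ}
    (hf : ∀ y ∈ Icc (0 : ℝ) 1, |f y| ≤ M) :
    Summable fun i => wt g b s i * f (g i ^ 2 / (s ^ 2 + g i ^ 2)) := by
  refine Summable.of_norm_bounded ((wt_summable (g := g) hb hsum hs).mul_right M) fun i => ?_
  rw [norm_mul, Real.norm_eq_abs, abs_of_nonneg (wt_nonneg hb s i), Real.norm_eq_abs]
  exact mul_le_mul_of_nonneg_left (hf _ (yy_mem hs _)) (wt_nonneg hb s i)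

theorem lam_sub_le (hb : ∀ i, 0 ≤ b i) (hsum : Summable b) {s : ℝ} (hs : 1 ≤ s) {f f' : ℝ → ℝ} {M : ℝ}
    (hf : ∀ y ∈ Icc (0 : ℝ) 1, |f y| ≤ M) {M' : ℝ} (hf' : ∀ y ∈ Icc (0 : ℝ) 1, |f' y| ≤ M') {ε : ℝ}
    (h : ∀ y ∈ Icc (0 : ℝ) 1, |f y - f' y| ≤ ε) :
    |Lam g b s f - Lam g b s f'| ≤ ε * (s * sg g b s) := by
  unfold Lam sg
  have hs0 : 0 ≤ s := by linarith
  have h1 := lam_summable (g := g) hb hsum hs hf
  have h2 := lam_summable (g := g) hb hsum hs hf'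
  rw [← mul_sub, ← h1.tsum_sub h2, abs_mul, abs_of_nonneg hs0]
  have h3 : |∑' i, (wt g b s i * f (g i ^ 2 / (s ^ 2 + g i ^ 2)) -
      wt g b s i * f' (g i ^ 2 / (s ^ 2 + g i ^ 2)))| ≤ ∑' i, wt g b s i * ε := by
    rw [← Real.norm_eq_abs]
    refine tsum_of_norm_bounded ((wt_summable hb hsum hs).mul_right ε).hasSum fun i => ?_
    rw [← mul_sub, norm_mul, Real.norm_eq_abs, abs_of_nonneg (wt_nonneg hb s i), Real.norm_eq_abs]
    exact mul_le_mul_of_nonneg_left (h _ (yy_mem hs _)) (wt_nonneg hb s i)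
  rw [tsum_mul_right] at h3
  calc s * _ ≤ s * ((∑' i, wt g b s i) * ε) := mul_le_mul_of_nonneg_left h3 hs0
    _ = _ := by ring

theorem lam_mono (hb : ∀ i, 0 ≤ b i) (hsum : Summable b) {s : ℝ} (hs : 1 ≤ s) {f f' : ℝ → ℝ} {M : ℝ}
    (hf : ∀ y ∈ Icc (0 : ℝ) 1, |f y| ≤ M) {M' : ℝ} (hf' : ∀ y ∈ Icc (0 : ℝ) 1, |f' y| ≤ M')
    (h : ∀ y ∈ Icc (0 : ℝ) 1, f y ≤ f' y) : Lam g b s f ≤ Lam g b s f' := by
  unfold Lam
  refine mul_le_mul_of_nonneg_left ?_ (by linarith)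
  exact (lam_summable hb hsum hs hf).tsum_le_tsum
    (fun i => mul_le_mul_of_nonneg_left (h _ (yy_mem hs _)) (wt_nonneg hb s i)) (lam_summable hb hsum hs hf')

theorem lam_lin (hb : ∀ i, 0 ≤ b i) (hsum : Summable b) {s : ℝ} (hs : 1 ≤ s) {f f' : ℝ → ℝ} {M : ℝ}
    (hf : ∀ y ∈ Icc (0 : ℝ) 1, |f y| ≤ M) {M' : ℝ} (hf' : ∀ y ∈ Icc (0 : ℝ) 1, |f' y| ≤ M') (c c' : ℝ) :
    Lam g b s (fun y => c * f y + c' * f' y) = c * Lam g b s f + c' * Lam g b s f' := by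
  unfold Lam
  have h1 := (lam_summable (g := g) hb hsum hs hf).mul_left c
  have h2 := (lam_summable (g := g) hb hsum hs hf').mul_left c'
  have e : ∀ i, wt g b s i * (c * f (g i ^ 2 / (s ^ 2 + g i ^ 2)) + c' * f' (g i ^ 2 / (s ^ 2 + g i ^ 2))) =
      c * (wt g b s i * f (g i ^ 2 / (s ^ 2 + g i ^ 2))) +
      c' * (wt g b s i * f' (g i ^ 2 / (s ^ 2 + g i ^ 2))) := fun i => by ring
  simp_rw [e]
  rw [h1.tsum_add h2, tsum_mul_left, tsum_mul_left]
  ring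

theorem lam_one (s : ℝ) : Lam g b s (fun _ => 1) = s * sg g b s := by
  unfold Lam sg
  simp

/-! the limit functional -/

theorem y_mem (x : ℝ) : x ^ 2 / (1 + x ^ 2) ∈ Icc (0 : ℝ) 1 := by
  have h0 : 0 < 1 + x ^ 2 := by positivity
  refine ⟨by positivity, ?_⟩
  rw [div_le_one h0]
  linarith

theorem y_cont : Continuous fun x : ℝ => x ^ 2 / (1 + x ^ 2) := by
  refine Continuous.div (by fun_prop) (by fun_prop) fun x => ?_
  positivity

theorem inv_int : Integrable fun x : ℝ => (1 + x ^ 2)⁻¹ := integrable_inv_one_add_sq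

theorem II_int {f : ℝ → ℝ} (hf : ContinuousOn f (Icc 0 1)) :
    Integrable fun x : ℝ => f (x ^ 2 / (1 + x ^ 2)) * (1 + x ^ 2)⁻¹ := by
  obtain ⟨M, hM⟩ := isCompact_Icc.exists_bound_of_continuousOn hf
  refine Integrable.bdd_mul inv_int (c := M) ?_ (Eventually.of_forall fun x => hM _ (y_mem x))
  exact (hf.comp_continuous y_cont fun x => y_mem x).aestronglyMeasurable

theorem II_one : II (fun _ => 1) = Real.pi := by
  unfold II
  simp

theorem II_sub_le {f f' : ℝ → ℝ} (hf : ContinuousOn f (Icc 0 1)) (hf' : ContinuousOn f' (Icc 0 1)) {ε : ℝ}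
    (h : ∀ y ∈ Icc (0 : ℝ) 1, |f y - f' y| ≤ ε) : |II f - II f'| ≤ ε * Real.pi := by
  unfold II
  rw [← integral_sub (II_int hf) (II_int hf')]
  have h1 : ∫ x : ℝ, ε * (1 + x ^ 2)⁻¹ = ε * Real.pi := by
    rw [integral_const_mul, integral_univ_inv_one_add_sq]
  rw [← h1, ← Real.norm_eq_abs]
  refine norm_integral_le_of_norm_le (inv_int.const_mul ε) (Eventually.of_forall fun x => ?_)
  have h2 : (0 : ℝ) ≤ (1 + x ^ 2)⁻¹ := by positivity
  rw [← sub_mul, norm_mul, Real.norm_eq_abs, Real.norm_eq_abs, abs_of_nonneg h2]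
  exact mul_le_mul_of_nonneg_right (h _ (y_mem x)) h2

theorem II_lin {f f' : ℝ → ℝ} (hf : ContinuousOn f (Icc 0 1)) (hf' : ContinuousOn f' (Icc 0 1)) (c c' : ℝ) :
    II (fun y => c * f y + c' * f' y) = c * II f + c' * II f' := by
  unfold II
  rw [← integral_const_mul, ← integral_const_mul, ← integral_add ((II_int hf).const_mul c)
    ((II_int hf').const_mul c')]
  congr 1
  funext x
  ring

/-- the class of functions -/
def EE (g b : ι → ℝ) (A : ℝ) (f : ℝ → ℝ) : Prop :=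
  ContinuousOn f (Icc 0 1) ∧ Tendsto (fun s => Lam g b s f) atTop (𝓝 (A * II f))

theorem bdd_of {f : ℝ → ℝ} (hf : ContinuousOn f (Icc 0 1)) : ∃ M, ∀ y ∈ Icc (0 : ℝ) 1, |f y| ≤ M := by
  obtain ⟨M, hM⟩ := isCompact_Icc.exists_bound_of_continuousOn hf
  exact ⟨M, fun y hy => by simpa [Real.norm_eq_abs] using hM y hy⟩

theorem EE_lin (hb : ∀ i, 0 ≤ b i) (hsum : Summable b) {A : ℝ} {f f' : ℝ → ℝ} (hf : EE g b A f)
    (hf' : EE g b A f') (c c' : ℝ) : EE g b A (fun y => c * f y + c' * f' y) := by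
  obtain ⟨M, hM⟩ := bdd_of hf.1
  obtain ⟨M', hM'⟩ := bdd_of hf'.1
  refine ⟨(hf.1.const_smul c).add (hf'.1.const_smul c'), ?_⟩
  rw [II_lin hf.1 hf'.1]
  have h1 := (hf.2.const_mul c).add (hf'.2.const_mul c')
  have e : A * (c * II f + c' * II f') = c * (A * II f) + c' * (A * II f') := by ring
  rw [e]
  refine h1.congr' ?_
  filter_upwards [eventually_ge_atTop 1] with s hs
  exact (lam_lin hb hsum hs hM hM' c c').symm

theorem EE_closed (hb : ∀ i, 0 ≤ b i) (hsum : Summable b) {A : ℝ} (h1 : EE g b A (fun _ => 1)) {f : ℝ → ℝ}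
    (hf : ContinuousOn f (Icc 0 1))
    (h : ∀ ε : ℝ, 0 < ε → ∃ f', EE g b A f' ∧ ∀ y ∈ Icc (0 : ℝ) 1, |f y - f' y| ≤ ε) : EE g b A f := by
  refine ⟨hf, ?_⟩
  have h2 := h1.2
  simp_rw [lam_one] at h2
  rw [II_one] at h2
  rw [Metric.tendsto_nhds]
  intro ε hε
  set B := |A * Real.pi| + 1 with hB
  have hB0 : 0 < B := by positivity
  obtain ⟨f', hf', hff⟩ := h (ε / (4 * B)) (by positivity)
  obtain ⟨M, hM⟩ := bdd_of hf
  obtain ⟨M', hM'⟩ := bdd_of hf'.1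
  have h3 := h2.eventually (gt_mem_nhds (lt_of_le_of_lt (le_abs_self (A * Real.pi))
    (lt_add_one |A * Real.pi|)))
  have h4 := hf'.2.eventually (Metric.ball_mem_nhds _ (by positivity : 0 < ε / 4))
  filter_upwards [h3, h4, eventually_ge_atTop 1] with s h5 h6 h7
  have k1 := lam_sub_le (g := g) hb hsum h7 hM hM' hff
  have k2 := II_sub_le hf hf'.1 hff
  rw [Real.dist_eq] at h6 ⊢
  have k3 : |A * II f - A * II f'| ≤ |A| * (ε / (4 * B) * Real.pi) := by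
    rw [← mul_sub, abs_mul]
    exact mul_le_mul_of_nonneg_left k2 (abs_nonneg A)
  have k4 : |A| * (ε / (4 * B) * Real.pi) ≤ ε / 4 := by
    have e1 : |A| * (ε / (4 * B) * Real.pi) = ε / 4 * ((|A| * Real.pi) / B) := by field_simp
    rw [e1]
    have e2 : |A| * Real.pi = |A * Real.pi| := by
      rw [abs_mul, abs_of_pos Real.pi_pos]
    have e3 : |A| * Real.pi / B ≤ 1 := by
      rw [div_le_one hB0, e2, hB]
      linarith
    calc ε / 4 * ((|A| * Real.pi) / B) ≤ ε / 4 * 1 := by gcongr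
      _ = ε / 4 := mul_one _
  have k5 : ε / (4 * B) * (s * sg g b s) ≤ ε / 4 := by
    have e1 : ε / (4 * B) * (s * sg g b s) ≤ ε / (4 * B) * B := by
      refine mul_le_mul_of_nonneg_left ?_ (by positivity)
      exact h5.le
    have e2 : ε / (4 * B) * B = ε / 4 := by field_simp
    linarith
  have k6 := k1.trans k5
  have k7 := k3.trans k4
  rw [abs_le] at k6 k7
  rw [abs_lt] at h6 ⊢
  constructor <;> linarith [k6.1, k6.2, k7.1, k7.2, h6.1, h6.2]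

/-- the functions `1 / (1 + t y)` -/
theorem lam_ft (hb : ∀ i, 0 ≤ b i) {t : ℝ} (ht : 0 ≤ t) {s : ℝ} (hs : 1 ≤ s) :
    Lam g b s (fun y => (1 + t * y)⁻¹) = (Real.sqrt (1 + t))⁻¹ *
      ((s / Real.sqrt (1 + t)) * sg g b (s / Real.sqrt (1 + t))) := by
  unfold Lam sg
  set q := Real.sqrt (1 + t) with hq
  have hq0 : 0 < q := Real.sqrt_pos.2 (by linarith)
  have hq2 : q ^ 2 = 1 + t := Real.sq_sqrt (by linarith)
  have hs0 : 0 < s := by linarith
  rw [← mul_assoc, ← tsum_mul_left, ← tsum_mul_left]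
  refine tsum_congr fun i => ?_
  unfold wt
  beta_reduce
  have h1 : 0 < s ^ 2 + g i ^ 2 := by positivity
  have h2 : 0 < s ^ 2 + q ^ 2 * g i ^ 2 := by positivity
  have e1 : 1 + t * (g i ^ 2 / (s ^ 2 + g i ^ 2)) = (s ^ 2 + q ^ 2 * g i ^ 2) / (s ^ 2 + g i ^ 2) := by
    rw [hq2]
    field_simp
    ring
  have e2 : (s / q) ^ 2 + g i ^ 2 = (s ^ 2 + q ^ 2 * g i ^ 2) / q ^ 2 := by
    field_simp
  rw [e1, e2]
  field_simp

theorem II_ft {t : ℝ} (ht : 0 ≤ t) : II (fun y => (1 + t * y)⁻¹) = (Real.sqrt (1 + t))⁻¹ * Real.pi := by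
  unfold II
  set q := Real.sqrt (1 + t) with hq
  have hq0 : 0 < q := Real.sqrt_pos.2 (by linarith)
  have hq2 : q ^ 2 = 1 + t := Real.sq_sqrt (by linarith)
  have e : ∀ x : ℝ, (1 + t * (x ^ 2 / (1 + x ^ 2)))⁻¹ * (1 + x ^ 2)⁻¹ = (1 + (q * x) ^ 2)⁻¹ := by
    intro x
    rw [← mul_inv]
    congr 1
    rw [mul_pow, hq2]
    have : (1 : ℝ) + x ^ 2 ≠ 0 := by positivity
    field_simp
    ring
  simp_rw [e]
  rw [Measure.integral_comp_mul_left (fun x : ℝ => (1 + x ^ 2)⁻¹) q, integral_univ_inv_one_add_sq,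
    smul_eq_mul, abs_of_pos (inv_pos.2 hq0)]

theorem ft_cont {t : ℝ} (ht : 0 ≤ t) : ContinuousOn (fun y : ℝ => (1 + t * y)⁻¹) (Icc 0 1) := by
  refine ContinuousOn.inv₀ (by fun_prop) fun y hy => ?_
  have : 0 ≤ t * y := mul_nonneg ht hy.1
  positivity

theorem EE_ft (hb : ∀ i, 0 ≤ b i) {A : ℝ} (h1 : EE g b A (fun _ => 1)) {t : ℝ} (ht : 0 ≤ t) :
    EE g b A (fun y => (1 + t * y)⁻¹) := by
  refine ⟨ft_cont ht, ?_⟩
  have h2 := h1.2
  simp_rw [lam_one] at h2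
  rw [II_one] at h2
  rw [II_ft ht]
  have hq0 : 0 < Real.sqrt (1 + t) := Real.sqrt_pos.2 (by linarith)
  have h3 : Tendsto (fun s : ℝ => s / Real.sqrt (1 + t)) atTop atTop := tendsto_id.atTop_div_const hq0
  have h4 := (h2.comp h3).const_mul (Real.sqrt (1 + t))⁻¹
  have e : A * ((Real.sqrt (1 + t))⁻¹ * Real.pi) = (Real.sqrt (1 + t))⁻¹ * (A * Real.pi) := by ring
  rw [e]
  refine h4.congr' ?_
  filter_upwards [eventually_ge_atTop 1] with s hs
  exact (lam_ft hb ht hs).symm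

theorem geom_id (k : ℕ) (t y : ℝ) (h : 1 + t * y ≠ 0) :
    (1 + t * y)⁻¹ = ∑ j ∈ Finset.range k, (-t) ^ j * y ^ j + (-t) ^ k * (y ^ k * (1 + t * y)⁻¹) := by
  induction k with
  | zero => simp
  | succ k ih =>
    rw [Finset.sum_range_succ, add_assoc]
    refine ih.trans ?_
    congr 1
    field_simp
    ring

theorem EE_congr {A : ℝ} {f f' : ℝ → ℝ} (hf : EE g b A f) (h : ∀ y, f y = f' y) : EE g b A f' := by
  have : f = f' := funext h
  rwa [← this]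

theorem EE_pow (hb : ∀ i, 0 ≤ b i) (hsum : Summable b) {A : ℝ} (h1 : EE g b A (fun _ => 1)) (k : ℕ) :
    EE g b A (fun y => y ^ k) := by
  induction k using Nat.strong_induction_on with
  | _ k ih =>
    have hsumE : ∀ t : ℝ, ∀ m : ℕ, m ≤ k → EE g b A (fun y => ∑ j ∈ Finset.range m, (-t) ^ j * y ^ j) := by
      intro t m
      induction m with
      | zero =>
        intro _
        have := EE_lin hb hsum h1 h1 0 0
        exact EE_congr this fun y => by simp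
      | succ m ihm =>
        intro hm
        have h2 := EE_lin hb hsum (ihm (by omega)) (ih m (by omega)) 1 ((-t) ^ m)
        exact EE_congr h2 fun y => by rw [Finset.sum_range_succ, one_mul]
    refine EE_closed hb hsum h1 (by fun_prop) fun ε hε => ?_
    have ht : 0 < ε := hε
    refine ⟨fun y => ((-ε) ^ k)⁻¹ * (1 + ε * y)⁻¹ +
      (-((-ε) ^ k)⁻¹) * ∑ j ∈ Finset.range k, (-ε) ^ j * y ^ j,
      EE_lin hb hsum (EE_ft hb h1 ht.le) (hsumE ε k le_rfl) _ _, fun y hy => ?_⟩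
    have hy0 : 0 ≤ ε * y := mul_nonneg ht.le hy.1
    have hne : 1 + ε * y ≠ 0 := by positivity
    have h3 := geom_id k ε y hne
    have hk : (-ε) ^ k ≠ 0 := pow_ne_zero _ (neg_ne_zero.2 ht.ne')
    have e : ((-ε) ^ k)⁻¹ * (1 + ε * y)⁻¹ +
      (-((-ε) ^ k)⁻¹) * ∑ j ∈ Finset.range k, (-ε) ^ j * y ^ j = y ^ k * (1 + ε * y)⁻¹ := by
      nth_rewrite 1 [h3]
      field_simp
      ring
    beta_reduce
    rw [e]
    have e2 : y ^ k - y ^ k * (1 + ε * y)⁻¹ = y ^ k * (y * (ε * (1 + ε * y)⁻¹)) := by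
      field_simp
      ring
    rw [e2]
    have hy1 : y ^ k ≤ 1 := pow_le_one₀ hy.1 hy.2
    have hy2 : 0 ≤ y ^ k := pow_nonneg hy.1 k
    have hi : (1 + ε * y)⁻¹ ≤ 1 := inv_le_one_of_one_le₀ (by linarith)
    have hi0 : 0 ≤ (1 + ε * y)⁻¹ := by positivity
    have hh : 0 ≤ y ^ k * (y * (ε * (1 + ε * y)⁻¹)) := by
      have := hy.1
      positivity
    rw [abs_of_nonneg hh]
    have hy3 := hy.1
    have hy4 := hy.2
    have l1 : ε * (1 + ε * y)⁻¹ ≤ ε := by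
      calc ε * (1 + ε * y)⁻¹ ≤ ε * 1 := by gcongr
        _ = ε := mul_one _
    have l2 : 0 ≤ ε * (1 + ε * y)⁻¹ := by positivity
    have l3 : y * (ε * (1 + ε * y)⁻¹) ≤ ε := by
      calc y * (ε * (1 + ε * y)⁻¹) ≤ 1 * (ε * (1 + ε * y)⁻¹) := by gcongr
        _ ≤ ε := by linarith
    calc y ^ k * (y * (ε * (1 + ε * y)⁻¹)) ≤ 1 * (y * (ε * (1 + ε * y)⁻¹)) := by gcongr
      _ ≤ ε := by linarith

theorem EE_poly (hb : ∀ i, 0 ≤ b i) (hsum : Summable b) {A : ℝ} (h1 : EE g b A (fun _ => 1))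
    (p : Polynomial ℝ) : EE g b A (fun y => p.eval y) := by
  induction p using Polynomial.induction_on' with
  | add p q hp hq =>
    have := EE_lin hb hsum hp hq 1 1
    exact EE_congr this fun y => by simp
  | monomial n c =>
    have := EE_lin hb hsum (EE_pow hb hsum h1 n) h1 c 0
    exact EE_congr this fun y => by simp

/-- all continuous functions on `[0, 1]` -/
theorem EE_all (hb : ∀ i, 0 ≤ b i) (hsum : Summable b) {A : ℝ} (h1 : EE g b A (fun _ => 1))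
    {f : ℝ → ℝ} (hf : ContinuousOn f (Icc 0 1)) : EE g b A f := by
  refine EE_closed hb hsum h1 hf fun ε hε => ?_
  obtain ⟨p, hp⟩ := exists_polynomial_near_of_continuousOn 0 1 f hf ε hε
  refine ⟨fun y => p.eval y, EE_poly hb hsum h1 p, fun y hy => ?_⟩
  rw [abs_sub_comm]
  exact (hp y hy).le

theorem EE_of_sg {A : ℝ} (h : Tendsto (fun s => s * sg g b s) atTop (𝓝 (Real.pi * A))) :
    EE g b A (fun _ => 1) := by
  refine ⟨continuousOn_const, ?_⟩
  simp_rw [lam_one]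
  rwa [II_one, mul_comm A]

end Pool.Agent.J6H39.IC
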