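import Pool.Agent.J6H39.IC.T2

/-! Project IC: a Tauberian theorem, part 2: the counting function. -/

set_option autoImplicit false

open Filter Topology Set MeasureTheory

namespace Pool.Agent.J6H39.IC

variable {ι : Type*} {g b : ι → ℝ}

/-- the counting function -/
noncomputable def JJ (g b : ι → ℝ) (T : ℝ) : ℝ := ∑' i, if |g i| ≤ T then b i * (g i ^ 2 + 1 / 4) else 0

/-- a continuous cut-off -/
noncomputable def cu (u v y : ℝ) : ℝ := max 0 (min 1 ((v - y) / (v - u)))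

theorem cu_cont (u v : ℝ) : Continuous (cu u v) := by
  unfold cu
  fun_prop

theorem cu_nonneg (u v y : ℝ) : 0 ≤ cu u v y := le_max_left _ _

theorem cu_le_one (u v y : ℝ) : cu u v y ≤ 1 := max_le zero_le_one (min_le_left _ _)

theorem cu_one {u v y : ℝ} (h : u < v) (hy : y ≤ u) : cu u v y = 1 := by
  unfold cu
  have h0 : 0 < v - u := by linarith
  have : 1 ≤ (v - y) / (v - u) := by
    rw [one_le_div h0]
    linarith
  rw [min_eq_left this, max_eq_right zero_le_one]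

theorem cu_zero {u v y : ℝ} (h : u < v) (hy : v ≤ y) : cu u v y = 0 := by
  unfold cu
  have h0 : 0 < v - u := by linarith
  have h1 : (v - y) / (v - u) ≤ 0 := div_nonpos_of_nonpos_of_nonneg (by linarith) h0.le
  exact max_eq_left ((min_le_right _ _).trans h1)

/-- the `y` of `x = r` -/
noncomputable def yr (r : ℝ) : ℝ := r ^ 2 / (1 + r ^ 2)

theorem yr_one : yr 1 = 1 / 2 := by unfold yr; norm_num

theorem yr_lt_one (r : ℝ) : yr r < 1 := by
  unfold yr
  rw [div_lt_one (by positivity)]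
  linarith

theorem yr_lt {r r' : ℝ} (h0 : 0 ≤ r) (h : r < r') : yr r < yr r' := by
  unfold yr
  rw [div_lt_div_iff₀ (by positivity) (by positivity)]
  have : r ^ 2 < r' ^ 2 := by gcongr
  nlinarith

theorem yr_le_iff {r x : ℝ} (h0 : 0 ≤ r) : x ^ 2 / (1 + x ^ 2) ≤ yr r ↔ |x| ≤ r := by
  unfold yr
  rw [div_le_div_iff₀ (by positivity) (by positivity), abs_le]
  constructor
  · intro h
    have h1 : x ^ 2 ≤ r ^ 2 := by nlinarith
    exact abs_le.1 (abs_le_of_sq_le_sq h1 h0)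
  · intro h
    have h1 : x ^ 2 ≤ r ^ 2 := by nlinarith [h.1, h.2]
    nlinarith

/-- the test functions -/
noncomputable def tf (δ u v y : ℝ) : ℝ := cu u v y / max (1 - y) δ

theorem tf_cont {δ : ℝ} (hδ : 0 < δ) (u v : ℝ) : Continuous (tf δ u v) := by
  unfold tf
  refine (cu_cont u v).div (by fun_prop) fun y => ?_
  have : 0 < max (1 - y) δ := lt_of_lt_of_le hδ (le_max_right _ _)
  exact this.ne'

/-- the value of the limit functional -/
theorem II_tf {δ u v : ℝ} (huv : u < v) (hv : δ ≤ 1 - v) :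
    II (tf δ u v) = ∫ x : ℝ, cu u v (x ^ 2 / (1 + x ^ 2)) := by
  unfold II
  congr 1
  funext x
  unfold tf
  have h0 : (0 : ℝ) < 1 + x ^ 2 := by positivity
  have e : 1 - x ^ 2 / (1 + x ^ 2) = (1 + x ^ 2)⁻¹ := by field_simp; ring
  rcases le_or_gt (x ^ 2 / (1 + x ^ 2)) v with h | h
  · have h1 : max (1 - x ^ 2 / (1 + x ^ 2)) δ = (1 + x ^ 2)⁻¹ := by
      rw [max_eq_left (by linarith), e]
    rw [h1, div_mul_cancel₀ _ (by positivity)]
  · rw [cu_zero huv h.le, zero_div, zero_mul]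

theorem II_tf_le {δ r : ℝ} (hr : 1 < r) (hv : δ ≤ 1 - yr r) : II (tf δ (yr 1) (yr r)) ≤ 2 * r := by
  rw [II_tf (yr_lt zero_le_one hr) hv]
  have h1 : ∫ x : ℝ, (Icc (-r) r).indicator (fun _ => (1 : ℝ)) x = 2 * r := by
    rw [integral_indicator measurableSet_Icc, setIntegral_const, smul_eq_mul, mul_one,
      Real.volume_real_Icc_of_le (by linarith)]
    ring
  rw [← h1]
  have hint : Integrable ((Icc (-r) r).indicator (fun _ => (1 : ℝ))) := by
    rw [integrable_indicator_iff measurableSet_Icc]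
    exact integrableOn_const (by simp)
  refine integral_mono_of_nonneg (Eventually.of_forall fun x => cu_nonneg _ _ _) hint
    (Eventually.of_forall fun x => ?_)
  beta_reduce
  by_cases hx : x ∈ Icc (-r) r
  · rw [indicator_of_mem hx]
    exact cu_le_one _ _ _
  · rw [indicator_of_notMem hx]
    have h2 : ¬ |x| ≤ r := fun h => hx (abs_le.1 h)
    rw [← yr_le_iff (by linarith)] at h2
    rw [cu_zero (yr_lt zero_le_one hr) (not_le.1 h2).le]

theorem II_tf_ge {δ r : ℝ} (h0 : 0 < r) (hr : r < 1) (hv : δ ≤ 1 - yr 1) :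
    2 * r ≤ II (tf δ (yr r) (yr 1)) := by
  rw [II_tf (yr_lt h0.le hr) hv]
  have h1 : ∫ x : ℝ, (Icc (-r) r).indicator (fun _ => (1 : ℝ)) x = 2 * r := by
    rw [integral_indicator measurableSet_Icc, setIntegral_const, smul_eq_mul, mul_one,
      Real.volume_real_Icc_of_le (by linarith)]
    ring
  rw [← h1]
  have hint : Integrable (fun x : ℝ => cu (yr r) (yr 1) (x ^ 2 / (1 + x ^ 2))) := by
    have hi : Integrable ((Icc (-1 : ℝ) 1).indicator (fun _ => (1 : ℝ))) := by
      rw [integrable_indicator_iff measurableSet_Icc]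
      exact integrableOn_const (by simp)
    refine hi.mono' (((cu_cont _ _).comp y_cont).aestronglyMeasurable) (Eventually.of_forall fun x => ?_)
    rw [Real.norm_eq_abs, abs_of_nonneg (cu_nonneg _ _ _)]
    by_cases hx : x ∈ Icc (-1 : ℝ) 1
    · rw [indicator_of_mem hx]
      exact cu_le_one _ _ _
    · rw [indicator_of_notMem hx]
      have h2 : ¬ |x| ≤ 1 := fun h => hx (abs_le.1 h)
      rw [← yr_le_iff (by linarith)] at h2
      rw [cu_zero (yr_lt h0.le hr) (not_le.1 h2).le]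
  refine integral_mono_of_nonneg (Eventually.of_forall fun x => ?_) hint (Eventually.of_forall fun x => ?_)
  · exact indicator_nonneg (fun _ _ => zero_le_one) x
  beta_reduce
  by_cases hx : x ∈ Icc (-r) r
  · rw [indicator_of_mem hx]
    have h2 : |x| ≤ r := abs_le.2 hx
    rw [← yr_le_iff h0.le] at h2
    rw [cu_one (yr_lt h0.le hr) h2]
  · rw [indicator_of_notMem hx]
    exact cu_nonneg _ _ _

theorem le_iff_y {s : ℝ} (hs : 0 < s) (γ : ℝ) : γ ^ 2 / (s ^ 2 + γ ^ 2) ≤ 1 / 2 ↔ |γ| ≤ s := by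
  rw [div_le_div_iff₀ (by positivity) (by norm_num)]
  constructor
  · intro h
    exact abs_le_of_sq_le_sq (by linarith) hs.le
  · intro h
    have h1 : γ ^ 2 ≤ s ^ 2 := by
      rw [← sq_abs γ]
      gcongr
    linarith

theorem JJ_term_le (hb : ∀ i, 0 ≤ b i) {T : ℝ} (i : ι) :
    ‖(if |g i| ≤ T then b i * (g i ^ 2 + 1 / 4) else 0 : ℝ)‖ ≤ b i * (T ^ 2 + 1 / 4) := by
  have hbi := hb i
  split_ifs with h
  · rw [Real.norm_eq_abs, abs_of_nonneg (by positivity)]
    refine mul_le_mul_of_nonneg_left ?_ hbi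
    have : g i ^ 2 ≤ T ^ 2 := by
      rw [← sq_abs (g i)]
      gcongr
    linarith
  · rw [norm_zero]
    positivity

theorem JJ_summable (hb : ∀ i, 0 ≤ b i) (hsum : Summable b) (T : ℝ) :
    Summable fun i => (if |g i| ≤ T then b i * (g i ^ 2 + 1 / 4) else 0 : ℝ) :=
  Summable.of_norm_bounded (hsum.mul_right _) fun i => JJ_term_le hb i

theorem JJ_nonneg (hb : ∀ i, 0 ≤ b i) (T : ℝ) : 0 ≤ JJ g b T := by
  refine tsum_nonneg fun i => ?_
  have := hb i
  split_ifs
  · positivity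
  · exact le_rfl

theorem tf_nonneg {δ : ℝ} (hδ : 0 < δ) (u v y : ℝ) : 0 ≤ tf δ u v y := by
  unfold tf
  have : 0 < max (1 - y) δ := lt_of_lt_of_le hδ (le_max_right _ _)
  exact div_nonneg (cu_nonneg _ _ _) this.le

/-- bounds for the counting function -/
theorem JJ_le (hb : ∀ i, 0 ≤ b i) (hsum : Summable b) {s δ r : ℝ} (hs : 1 ≤ s) (hr : 1 < r) (hδ : 0 < δ)
    (hv : δ ≤ 1 - yr r) : JJ g b s / s ≤ Lam g b s (tf δ (yr 1) (yr r)) := by
  obtain ⟨M, hM⟩ := bdd_of (tf_cont hδ (yr 1) (yr r)).continuousOn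
  have hs0 : 0 < s := by linarith
  unfold Lam JJ
  rw [div_eq_mul_inv, ← tsum_mul_right, ← tsum_mul_left]
  refine ((JJ_summable hb hsum s).mul_right _).tsum_le_tsum (fun i => ?_)
    ((lam_summable hb hsum hs hM).mul_left s)
  have hbi := hb i
  have hw := wt_nonneg (g := g) hb s i
  have ht := tf_nonneg hδ (yr 1) (yr r) (g i ^ 2 / (s ^ 2 + g i ^ 2))
  split_ifs with h
  · have h1 := (le_iff_y hs0 (g i)).2 h
    have h2 : tf δ (yr 1) (yr r) (g i ^ 2 / (s ^ 2 + g i ^ 2)) = (s ^ 2 + g i ^ 2) / s ^ 2 := by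
      unfold tf
      rw [cu_one (yr_lt zero_le_one hr) (by rw [yr_one]; exact h1)]
      have e : 1 - g i ^ 2 / (s ^ 2 + g i ^ 2) = s ^ 2 / (s ^ 2 + g i ^ 2) := by
        field_simp
        ring
      have h3 : 1 - yr r ≤ 1 - g i ^ 2 / (s ^ 2 + g i ^ 2) := by
        have := yr_lt zero_le_one hr
        rw [yr_one] at this
        linarith
      rw [max_eq_left (hv.trans h3), e, one_div_div]
    rw [h2]
    unfold wt
    refine le_of_eq ?_
    field_simp
  · rw [zero_mul]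
    positivity

theorem JJ_ge (hb : ∀ i, 0 ≤ b i) (hsum : Summable b) {s δ r : ℝ} (hs : 1 ≤ s) (h0 : 0 < r) (hr : r < 1)
    (hδ : 0 < δ) (hv : δ ≤ 1 - yr 1) : Lam g b s (tf δ (yr r) (yr 1)) ≤ JJ g b s / s := by
  obtain ⟨M, hM⟩ := bdd_of (tf_cont hδ (yr r) (yr 1)).continuousOn
  have hs0 : 0 < s := by linarith
  unfold Lam JJ
  rw [div_eq_mul_inv, ← tsum_mul_right, ← tsum_mul_left]
  refine ((lam_summable hb hsum hs hM).mul_left s).tsum_le_tsum (fun i => ?_)
    ((JJ_summable hb hsum s).mul_right _)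
  have hbi := hb i
  have hw := wt_nonneg (g := g) hb s i
  split_ifs with h
  · have h1 := (le_iff_y hs0 (g i)).2 h
    have h2 : tf δ (yr r) (yr 1) (g i ^ 2 / (s ^ 2 + g i ^ 2)) ≤ (s ^ 2 + g i ^ 2) / s ^ 2 := by
      unfold tf
      have e : 1 - g i ^ 2 / (s ^ 2 + g i ^ 2) = s ^ 2 / (s ^ 2 + g i ^ 2) := by
        field_simp
        ring
      have h3 : 1 - yr 1 ≤ 1 - g i ^ 2 / (s ^ 2 + g i ^ 2) := by
        rw [yr_one]
        linarith
      rw [max_eq_left (hv.trans h3), e]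
      have h4 := cu_le_one (yr r) (yr 1) (g i ^ 2 / (s ^ 2 + g i ^ 2))
      rw [div_div_eq_mul_div]
      gcongr
      calc cu (yr r) (yr 1) (g i ^ 2 / (s ^ 2 + g i ^ 2)) * (s ^ 2 + g i ^ 2) ≤ 1 * (s ^ 2 + g i ^ 2) := by
            gcongr
        _ = _ := one_mul _
    calc s * (wt g b s i * tf δ (yr r) (yr 1) (g i ^ 2 / (s ^ 2 + g i ^ 2))) ≤
        s * (wt g b s i * ((s ^ 2 + g i ^ 2) / s ^ 2)) := by gcongr
      _ = _ := by
        unfold wt
        field_simp
  · have h1 : ¬ g i ^ 2 / (s ^ 2 + g i ^ 2) ≤ 1 / 2 := fun h2 => h ((le_iff_y hs0 (g i)).1 h2)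
    have h2 : tf δ (yr r) (yr 1) (g i ^ 2 / (s ^ 2 + g i ^ 2)) = 0 := by
      unfold tf
      rw [cu_zero (yr_lt h0.le hr) (by rw [yr_one]; exact (not_le.1 h1).le), zero_div]
    rw [h2]
    simp

/-- **(ii) implies (i)** -/
theorem JJ_of_sg (hb : ∀ i, 0 ≤ b i) (hsum : Summable b) {A : ℝ}
    (h : Tendsto (fun s => s * sg g b s) atTop (𝓝 (Real.pi * A))) :
    Tendsto (fun T => JJ g b T / T) atTop (𝓝 (2 * A)) := by
  have h1 := EE_of_sg h
  have hA : 0 ≤ A := by
    have h2 : 0 ≤ Real.pi * A := by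
      refine ge_of_tendsto h ?_
      filter_upwards [eventually_ge_atTop 0] with s hs
      exact mul_nonneg hs (tsum_nonneg fun i => wt_nonneg hb s i)
    exact nonneg_of_mul_nonneg_right h2 Real.pi_pos
  rw [Metric.tendsto_nhds]
  intro ε hε
  -- choose `r`
  set η := min (1 / 2) (ε / (4 * (A + 1))) with hη
  have hη0 : 0 < η := lt_min (by norm_num) (by positivity)
  have hη1 : η ≤ 1 / 2 := min_le_left _ _
  have hη2 : A * η ≤ ε / 4 := by
    have h3 : η ≤ ε / (4 * (A + 1)) := min_le_right _ _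
    calc A * η ≤ (A + 1) * (ε / (4 * (A + 1))) := by gcongr; linarith
      _ = ε / 4 := by field_simp
  -- upper
  set δ := 1 - yr (1 + η) with hδ
  have hδ0 : 0 < δ := by have := yr_lt_one (1 + η); linarith
  have k1 := EE_all hb hsum h1 (tf_cont hδ0 (yr 1) (yr (1 + η))).continuousOn
  have k2 := II_tf_le (δ := δ) (r := 1 + η) (by linarith) le_rfl
  set δ' := 1 - yr 1 with hδ'
  have hδ'0 : 0 < δ' := by have := yr_lt_one 1; linarith
  have k3 := EE_all hb hsum h1 (tf_cont hδ'0 (yr (1 - η)) (yr 1)).continuousOn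
  have k4 := II_tf_ge (δ := δ') (r := 1 - η) (by linarith) (by linarith) le_rfl
  have k5 := k1.2.eventually (Metric.ball_mem_nhds _ (by positivity : 0 < ε / 4))
  have k6 := k3.2.eventually (Metric.ball_mem_nhds _ (by positivity : 0 < ε / 4))
  filter_upwards [k5, k6, eventually_ge_atTop 1] with s h5 h6 h7
  have h8 := JJ_le (g := g) hb hsum h7 (r := 1 + η) (by linarith) hδ0 le_rfl
  have h9 := JJ_ge (g := g) hb hsum h7 (r := 1 - η) (by linarith) (by linarith) hδ'0 le_rfl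
  rw [Real.dist_eq, abs_lt] at h5 h6 ⊢
  have k7 : A * II (tf δ (yr 1) (yr (1 + η))) ≤ A * (2 * (1 + η)) := by gcongr
  have k8 : A * (2 * (1 - η)) ≤ A * II (tf δ' (yr (1 - η)) (yr 1)) := by gcongr
  constructor
  · nlinarith [h6.1]
  · nlinarith [h5.2]

end Pool.Agent.J6H39.IC
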