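import Pool.Agent.J6H39.IC.T1
import Pool.Agent.Helper7.OT.Sinc

/-! Project IC: a Tauberian theorem, part 4: the second difference transform. -/

set_option autoImplicit false

open Filter Topology Set MeasureTheory

namespace Pool.Agent.J6H39.IC

variable {ι : Type*} {g b : ι → ℝ}

/-- `|e^{ρ l} - 1|²` for `ρ = 1/2 + i γ` -/
noncomputable def qq (γ l : ℝ) : ℝ := Real.exp l - 2 * Real.exp (l / 2) * Real.cos (γ * l) + 1

/-- the transform -/
noncomputable def CC (g b : ι → ℝ) (l : ℝ) : ℝ := ∑' i, b i * qq (g i) l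

theorem exp_half (l : ℝ) : Real.exp l = Real.exp (l / 2) ^ 2 := by
  rw [← Real.exp_nat_mul]
  congr 1
  push_cast
  ring

theorem qq_nonneg (γ l : ℝ) : 0 ≤ qq γ l := by
  unfold qq
  have h0 := Real.exp_pos (l / 2)
  have h1 := Real.cos_le_one (γ * l)
  rw [exp_half l]
  have h2 : 2 * Real.exp (l / 2) * Real.cos (γ * l) ≤ 2 * Real.exp (l / 2) * 1 := by gcongr
  nlinarith [sq_nonneg (Real.exp (l / 2) - 1)]

theorem qq_le {l : ℝ} (hl : 0 ≤ l) (γ : ℝ) : qq γ l ≤ 4 * Real.exp l := by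
  unfold qq
  have h0 := Real.exp_pos (l / 2)
  have h1 := Real.neg_one_le_cos (γ * l)
  have h2 : 2 * Real.exp (l / 2) * (-1) ≤ 2 * Real.exp (l / 2) * Real.cos (γ * l) := by gcongr
  have h3 : Real.exp (l / 2) ≤ Real.exp l := Real.exp_le_exp.2 (by linarith)
  have h4 : 1 ≤ Real.exp l := Real.one_le_exp hl
  linarith

theorem qq_le' (γ l : ℝ) : qq γ l ≤ 4 * Real.exp |l| := by
  unfold qq
  have h0 := Real.exp_pos (l / 2)
  have h1 := Real.neg_one_le_cos (γ * l)
  have h2 : 2 * Real.exp (l / 2) * (-1) ≤ 2 * Real.exp (l / 2) * Real.cos (γ * l) := by gcongr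
  have h5 := le_abs_self l
  have h6 := abs_nonneg l
  have h3 : Real.exp (l / 2) ≤ Real.exp |l| := Real.exp_le_exp.2 (by linarith)
  have h4 : 1 ≤ Real.exp |l| := Real.one_le_exp (abs_nonneg l)
  have h7 : Real.exp l ≤ Real.exp |l| := Real.exp_le_exp.2 h5
  linarith

theorem CC_summable (hb : ∀ i, 0 ≤ b i) (hsum : Summable b) (l : ℝ) : Summable fun i => b i * qq (g i) l :=
  Summable.of_nonneg_of_le (fun i => mul_nonneg (hb i) (qq_nonneg _ _))
    (fun i => mul_le_mul_of_nonneg_left (qq_le' _ _) (hb i)) (hsum.mul_right (4 * Real.exp |l|))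

theorem CC_nonneg (hb : ∀ i, 0 ≤ b i) (l : ℝ) : 0 ≤ CC g b l :=
  tsum_nonneg fun i => mul_nonneg (hb i) (qq_nonneg _ _)

theorem CC_le (hb : ∀ i, 0 ≤ b i) (hsum : Summable b) {l : ℝ} (hl : 0 ≤ l) :
    CC g b l ≤ 4 * (∑' i, b i) * Real.exp l := by
  unfold CC
  have h1 := (CC_summable (g := g) hb hsum l).tsum_le_tsum
    (fun i => mul_le_mul_of_nonneg_left (qq_le hl (g i)) (hb i)) (hsum.mul_right (4 * Real.exp l))
  rw [tsum_mul_right] at h1
  linarith

theorem CC_cont (hb : ∀ i, 0 ≤ b i) (hsum : Summable b) : Continuous (CC g b) := by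
  have h1 : Continuous fun l => ∑' i, b i * qq (g i) l * Real.exp (-|l|) := by
    refine continuous_tsum (u := fun i => b i * 4) (fun i => ?_) (hsum.mul_right 4) fun i l => ?_
    · unfold qq
      fun_prop
    · have h2 : 0 ≤ b i * qq (g i) l * Real.exp (-|l|) :=
        mul_nonneg (mul_nonneg (hb i) (qq_nonneg _ _)) (Real.exp_pos _).le
      rw [Real.norm_eq_abs, abs_of_nonneg h2, mul_assoc]
      refine mul_le_mul_of_nonneg_left ?_ (hb i)
      calc qq (g i) l * Real.exp (-|l|) ≤ 4 * Real.exp |l| * Real.exp (-|l|) := by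
            gcongr
            exact qq_le' _ _
        _ = 4 := by rw [mul_assoc, ← Real.exp_add, add_neg_cancel, Real.exp_zero, mul_one]
  have h2 : Continuous fun l : ℝ => (∑' i, b i * qq (g i) l * Real.exp (-|l|)) * Real.exp |l| := by
    exact h1.mul (by fun_prop)
  refine h2.congr fun l => ?_
  unfold CC
  rw [tsum_mul_right, mul_assoc, ← Real.exp_add, neg_add_cancel, Real.exp_zero, mul_one]

/-! the Laplace transform -/

theorem lap_cos {s : ℝ} (hs : 0 < s) (γ : ℝ) :
    IntegrableOn (fun l : ℝ => Real.exp (-(s * l)) * Real.cos (γ * l)) (Ioi 0) ∧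
    ∫ l in Ioi (0 : ℝ), Real.exp (-(s * l)) * Real.cos (γ * l) = s / (s ^ 2 + γ ^ 2) := by
  set a : ℂ := (-s : ℂ) + γ * Complex.I with ha
  have har : a.re = -s := by rw [ha]; simp
  have har' : a.re < 0 := by rw [har]; linarith
  have h1 := integrableOn_exp_mul_complex_Ioi har' 0
  have h2 := integral_exp_mul_complex_Ioi har' 0
  have e : ∀ l : ℝ, (Complex.exp (a * l)).re = Real.exp (-(s * l)) * Real.cos (γ * l) := by
    intro l
    rw [Complex.exp_re]
    have e1 : (a * (l : ℂ)).re = -(s * l) := by rw [ha]; simp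
    have e2 : (a * (l : ℂ)).im = γ * l := by rw [ha]; simp
    rw [e1, e2]
  have h3 : IntegrableOn (fun l : ℝ => (Complex.exp (a * l)).re) (Ioi 0) := h1.re
  simp_rw [e] at h3
  refine ⟨h3, ?_⟩
  have h4 : ∫ l in Ioi (0 : ℝ), (Complex.exp (a * l)).re = (-Complex.exp (a * (0 : ℝ)) / a).re := by
    rw [← h2]
    exact integral_re h1
  simp_rw [e] at h4
  rw [h4]
  simp only [Complex.ofReal_zero, mul_zero, Complex.exp_zero]
  rw [Complex.div_re]
  have hn : Complex.normSq a = s ^ 2 + γ ^ 2 := by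
    rw [Complex.normSq_apply, ha]
    simp
    ring
  rw [hn, har]
  simp

theorem lap_exp {s : ℝ} (hs : 0 < s) :
    IntegrableOn (fun l : ℝ => Real.exp (-(s * l))) (Ioi 0) ∧
    ∫ l in Ioi (0 : ℝ), Real.exp (-(s * l)) = 1 / s := by
  have h := lap_cos hs 0
  simp only [zero_mul, Real.cos_zero, mul_one] at h
  refine ⟨h.1, h.2.trans ?_⟩
  have : (0 : ℝ) ^ 2 = 0 := by norm_num
  rw [this, add_zero]
  field_simp

theorem lap_qq {s : ℝ} (hs : 1 ≤ s) (γ : ℝ) :
    IntegrableOn (fun l : ℝ => Real.exp (-((s + 1 / 2) * l)) * qq γ l) (Ioi 0) ∧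
    ∫ l in Ioi (0 : ℝ), Real.exp (-((s + 1 / 2) * l)) * qq γ l =
      2 * s / (s ^ 2 - 1 / 4) * ((γ ^ 2 + 1 / 4) / (s ^ 2 + γ ^ 2)) := by
  obtain ⟨i1, v1⟩ := lap_exp (s := s - 1 / 2) (by linarith)
  obtain ⟨i2, v2⟩ := lap_cos (s := s) (by linarith) γ
  obtain ⟨i3, v3⟩ := lap_exp (s := s + 1 / 2) (by linarith)
  have e : ∀ l : ℝ, Real.exp (-((s + 1 / 2) * l)) * qq γ l = Real.exp (-((s - 1 / 2) * l)) -
      2 * (Real.exp (-(s * l)) * Real.cos (γ * l)) + Real.exp (-((s + 1 / 2) * l)) := by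
    intro l
    unfold qq
    have e1 : Real.exp (-((s - 1 / 2) * l)) = Real.exp (-((s + 1 / 2) * l)) * Real.exp l := by
      rw [← Real.exp_add]; congr 1; ring
    have e2 : Real.exp (-(s * l)) = Real.exp (-((s + 1 / 2) * l)) * Real.exp (l / 2) := by
      rw [← Real.exp_add]; congr 1; ring
    rw [e1, e2]
    ring
  simp_rw [e]
  have i12 : Integrable (fun l : ℝ => Real.exp (-((s - 1 / 2) * l)) -
      2 * (Real.exp (-(s * l)) * Real.cos (γ * l))) (volume.restrict (Ioi 0)) := i1.sub (i2.const_mul 2)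
  refine ⟨i12.add i3, ?_⟩
  rw [integral_add i12 i3, integral_sub i1 (i2.const_mul 2), integral_const_mul, v1, v2, v3]
  have h1 : s - 1 / 2 ≠ 0 := by
    have : 0 < s - 1 / 2 := by linarith
    exact this.ne'
  have h2 : s + 1 / 2 ≠ 0 := by positivity
  have h3 : s ^ 2 - 1 / 4 ≠ 0 := by
    have : s ^ 2 - 1 / 4 = (s - 1 / 2) * (s + 1 / 2) := by ring
    rw [this]
    exact mul_ne_zero h1 h2
  have h4 : s ^ 2 + γ ^ 2 ≠ 0 := by positivity
  have h5 : 1 / (s - 1 / 2) + 1 / (s + 1 / 2) = 2 * s / (s ^ 2 - 1 / 4) := by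
    have : s ^ 2 - 1 / 4 = (s - 1 / 2) * (s + 1 / 2) := by ring
    rw [this, div_add_div _ _ h1 h2]
    congr 1
    ring
  have h6 : 1 / (s - 1 / 2) - 2 * (s / (s ^ 2 + γ ^ 2)) + 1 / (s + 1 / 2) =
      2 * s / (s ^ 2 - 1 / 4) - 2 * (s / (s ^ 2 + γ ^ 2)) := by rw [← h5]; ring
  have h7 : γ ^ 2 + 1 / 4 = (s ^ 2 + γ ^ 2) - (s ^ 2 - 1 / 4) := by ring
  rw [h6, h7]
  generalize s ^ 2 - 1 / 4 = D at *
  generalize s ^ 2 + γ ^ 2 = E at *
  field_simp

theorem lap_CC [Countable ι] (hb : ∀ i, 0 ≤ b i) (hsum : Summable b) {s : ℝ} (hs : 1 ≤ s) :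
    ∫ l in Ioi (0 : ℝ), Real.exp (-((s + 1 / 2) * l)) * CC g b l = 2 * s / (s ^ 2 - 1 / 4) * sg g b s := by
  set F : ι → ℝ → ℝ := fun i l => b i * (Real.exp (-((s + 1 / 2) * l)) * qq (g i) l) with hF
  have hFi : ∀ i, Integrable (F i) (volume.restrict (Ioi 0)) ∧
      ∫ x in Ioi (0 : ℝ), F i x = 2 * s / (s ^ 2 - 1 / 4) * wt g b s i := by
    intro i
    obtain ⟨h1, h2⟩ := lap_qq hs (g i)
    refine ⟨h1.const_mul (b i), ?_⟩
    rw [hF]
    beta_reduce
    rw [integral_const_mul, h2]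
    unfold wt
    ring
  have hnn : ∀ i x, 0 ≤ F i x := fun i x =>
    mul_nonneg (hb i) (mul_nonneg (Real.exp_pos _).le (qq_nonneg _ _))
  have h1 := hasSum_integral_of_summable_integral_norm (μ := volume.restrict (Ioi (0 : ℝ))) (F := F)
    (fun i => (hFi i).1) (by
      have : (fun i => ∫ x in Ioi (0 : ℝ), ‖F i x‖) = fun i => 2 * s / (s ^ 2 - 1 / 4) * wt g b s i := by
        funext i
        rw [← (hFi i).2]
        congr 1
        funext x
        rw [Real.norm_eq_abs, abs_of_nonneg (hnn i x)]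
      rw [this]
      exact (wt_summable hb hsum hs).mul_left _)
  have h2 : ∑' i, ∫ x in Ioi (0 : ℝ), F i x = 2 * s / (s ^ 2 - 1 / 4) * sg g b s := by
    unfold sg
    rw [← tsum_mul_left]
    exact tsum_congr fun i => (hFi i).2
  rw [← h2, h1.tsum_eq]
  congr 1
  funext x
  unfold CC
  rw [← tsum_mul_left]
  refine tsum_congr fun i => ?_
  rw [hF]
  ring

theorem ue_int : IntegrableOn (fun u : ℝ => u * Real.exp (-u)) (Ioi 0) ∧
    ∫ u in Ioi (0 : ℝ), u * Real.exp (-u) = 1 := by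
  have hd : ∀ x ∈ Ici (0 : ℝ), HasDerivAt (fun u : ℝ => -((u + 1) * Real.exp (-u))) (x * Real.exp (-x)) x := by
    intro x _
    have h1 : HasDerivAt (fun u : ℝ => Real.exp (-u)) (-Real.exp (-x)) x := by
      have := (hasDerivAt_neg x).exp
      exact this.congr_deriv (by ring)
    have h2 := (((hasDerivAt_id x).add_const 1).mul h1).neg
    refine (h2.congr_deriv ?_)
    simp only [id]
    ring
  have hlim : Tendsto (fun u : ℝ => -((u + 1) * Real.exp (-u))) atTop (𝓝 0) := by
    have h1 := Real.tendsto_pow_mul_exp_neg_atTop_nhds_zero 1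
    have h2 := Real.tendsto_pow_mul_exp_neg_atTop_nhds_zero 0
    have h3 := (h1.add h2).neg
    rw [add_zero, neg_zero] at h3
    refine h3.congr fun u => ?_
    simp only [pow_one, pow_zero]
    ring
  have hi : IntegrableOn (fun u : ℝ => u * Real.exp (-u)) (Ioi 0) :=
    integrableOn_Ioi_deriv_of_nonneg' hd (fun x hx => mul_nonneg (le_of_lt hx) (Real.exp_pos _).le) hlim
  refine ⟨hi, ?_⟩
  rw [integral_Ioi_of_hasDerivAt_of_tendsto' hd hi hlim]
  simp

/-- **(iii) implies (ii)** -/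
theorem sg_of_CC [Countable ι] (hb : ∀ i, 0 ≤ b i) (hsum : Summable b) {A : ℝ}
    (h : Tendsto (fun l => CC g b l / l) (𝓝[>] 0) (𝓝 (2 * Real.pi * A))) :
    Tendsto (fun s => s * sg g b s) atTop (𝓝 (Real.pi * A)) := by
  have hB0 : 0 ≤ ∑' i, b i := tsum_nonneg hb
  -- a bound
  obtain ⟨K, hK, hbd⟩ : ∃ K : ℝ, 0 ≤ K ∧ ∀ l : ℝ, 0 < l → CC g b l ≤ K * l * Real.exp l := by
    have h1 := h.eventually (gt_mem_nhds (lt_add_one (2 * Real.pi * A)))
    rw [eventually_nhdsWithin_iff] at h1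
    obtain ⟨r, hr, h2⟩ := Metric.eventually_nhds_iff.1 h1
    refine ⟨|2 * Real.pi * A + 1| + 4 * (∑' i, b i) / r, by positivity, fun l hl => ?_⟩
    have h4 : 0 ≤ |2 * Real.pi * A + 1| := abs_nonneg _
    have h5 : 0 ≤ 4 * (∑' i, b i) / r := by positivity
    rcases lt_or_ge l r with h3 | h3
    · have h6 := h2 (by rw [Real.dist_eq, sub_zero, abs_of_pos hl]; exact h3) hl
      rw [div_lt_iff₀ hl] at h6
      have h7 : 1 ≤ Real.exp l := Real.one_le_exp hl.le
      calc CC g b l ≤ (2 * Real.pi * A + 1) * l := h6.le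
        _ ≤ |2 * Real.pi * A + 1| * l := by
          gcongr
          exact le_abs_self _
        _ ≤ (|2 * Real.pi * A + 1| + 4 * (∑' i, b i) / r) * l := by
          gcongr
          linarith
        _ = (|2 * Real.pi * A + 1| + 4 * (∑' i, b i) / r) * l * 1 := by ring
        _ ≤ _ := by gcongr
    · have h6 := CC_le (g := g) hb hsum hl.le
      refine h6.trans ?_
      refine mul_le_mul_of_nonneg_right ?_ (Real.exp_pos _).le
      have h7 : 4 * (∑' i, b i) ≤ 4 * (∑' i, b i) / r * l := by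
        rw [div_mul_eq_mul_div, le_div_iff₀ hr]
        gcongr
      calc 4 * (∑' i, b i) ≤ 4 * (∑' i, b i) / r * l := h7
        _ ≤ _ := by
          gcongr
          linarith
  have hlim : Tendsto (fun s : ℝ => ∫ u in Ioi (0 : ℝ), Real.exp (-(u * (1 + 1 / (2 * s)))) * (s * CC g b (u / s)))
      atTop (𝓝 (∫ u in Ioi (0 : ℝ), 2 * Real.pi * A * (u * Real.exp (-u)))) := by
    refine tendsto_integral_filter_of_dominated_convergence (fun u => K * 4 * Real.exp (-(1 / 4 * u))) ?_ ?_ ?_ ?_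
    · refine Eventually.of_forall fun s => Continuous.aestronglyMeasurable ?_
      have := CC_cont (g := g) hb hsum
      fun_prop
    · filter_upwards [eventually_ge_atTop 2] with s hs
      refine (ae_restrict_iff' measurableSet_Ioi).2 (Eventually.of_forall fun u hu => ?_)
      have hu0 : 0 < u := hu
      have hs0 : 0 < s := by linarith
      have h1 := hbd (u / s) (by positivity)
      have h2 := CC_nonneg (g := g) hb (u / s)
      rw [Real.norm_eq_abs, abs_of_nonneg (by positivity)]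
      have h3 : s * CC g b (u / s) ≤ K * u * Real.exp (u / 2) := by
        calc s * CC g b (u / s) ≤ s * (K * (u / s) * Real.exp (u / s)) := by gcongr
          _ = K * u * Real.exp (u / s) := by field_simp
          _ ≤ K * u * Real.exp (u / 2) := by gcongr
      have h4 : Real.exp (-(u * (1 + 1 / (2 * s)))) ≤ Real.exp (-u) := by
        apply Real.exp_le_exp.2
        have : 0 ≤ u * (1 / (2 * s)) := by positivity
        linarith
      have h5 : u ≤ 4 * Real.exp (u / 4) := by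
        have := Real.add_one_le_exp (u / 4)
        linarith
      calc Real.exp (-(u * (1 + 1 / (2 * s)))) * (s * CC g b (u / s)) ≤
          Real.exp (-u) * (K * u * Real.exp (u / 2)) := by gcongr
        _ ≤ Real.exp (-u) * (K * (4 * Real.exp (u / 4)) * Real.exp (u / 2)) := by gcongr
        _ = K * 4 * (Real.exp (-u) * Real.exp (u / 4) * Real.exp (u / 2)) := by ring
        _ = _ := by
          rw [← Real.exp_add, ← Real.exp_add]
          congr 2
          ring
    · exact ((lap_exp (s := 1 / 4) (by norm_num)).1).const_mul _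
    · refine (ae_restrict_iff' measurableSet_Ioi).2 (Eventually.of_forall fun u hu => ?_)
      have hu0 : 0 < u := hu
      have h1 : Tendsto (fun s : ℝ => u / s) atTop (𝓝[>] 0) := by
        rw [tendsto_nhdsWithin_iff]
        refine ⟨tendsto_const_nhds.div_atTop tendsto_id, ?_⟩
        filter_upwards [eventually_gt_atTop 0] with s hs
        exact div_pos hu0 hs
      have h2 := (h.comp h1).mul_const u
      have h3 : Tendsto (fun s : ℝ => Real.exp (-(u * (1 + 1 / (2 * s))))) atTop (𝓝 (Real.exp (-(u * (1 + 0))))) := by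
        refine (Real.continuous_exp.tendsto _).comp (Tendsto.neg (Tendsto.const_mul u (tendsto_const_nhds.add ?_)))
        exact tendsto_const_nhds.div_atTop (tendsto_id.const_mul_atTop two_pos)
      have h4 := h3.mul h2
      have e : Real.exp (-(u * (1 + 0))) * (2 * Real.pi * A * u) = 2 * Real.pi * A * (u * Real.exp (-u)) := by
        rw [add_zero, mul_one]
        ring
      rw [e] at h4
      refine h4.congr' ?_
      filter_upwards [eventually_gt_atTop 0] with s hs
      simp only [Function.comp]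
      field_simp
  rw [integral_const_mul, ue_int.2, mul_one] at hlim
  have hpre : Tendsto (fun s : ℝ => (1 - 1 / 4 * (1 / s) ^ 2) / 2) atTop (𝓝 ((1 - 1 / 4 * 0 ^ 2) / 2)) := by
    have h1 : Tendsto (fun s : ℝ => 1 / s) atTop (𝓝 0) := tendsto_const_nhds.div_atTop tendsto_id
    exact (tendsto_const_nhds.sub ((h1.pow 2).const_mul _)).div_const 2
  have h2 := hpre.mul hlim
  have e : (1 - 1 / 4 * (0 : ℝ) ^ 2) / 2 * (2 * Real.pi * A) = Real.pi * A := by ring
  rw [e] at h2
  refine h2.congr' ?_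
  filter_upwards [eventually_ge_atTop 1] with s hs
  have hs0 : 0 < s := by linarith
  have h3 := lap_CC (g := g) hb hsum hs
  have h4 : ∫ u in Ioi (0 : ℝ), Real.exp (-(u * (1 + 1 / (2 * s)))) * (s * CC g b (u / s)) =
      s * (s * ∫ l in Ioi (0 : ℝ), Real.exp (-((s + 1 / 2) * l)) * CC g b l) := by
    have h5 := integral_comp_mul_left_Ioi (fun l : ℝ => Real.exp (-((s + 1 / 2) * l)) * CC g b l) 0
      (inv_pos.2 hs0)
    rw [mul_zero, inv_inv, smul_eq_mul] at h5
    rw [← h5, ← integral_const_mul]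
    congr 1
    funext u
    have e1 : (s + 1 / 2) * (s⁻¹ * u) = u * (1 + 1 / (2 * s)) := by field_simp
    have e2 : s⁻¹ * u = u / s := by field_simp
    rw [e1, e2]
    ring
  rw [h4, h3]
  have h6 : s ^ 2 - 1 / 4 ≠ 0 := by
    have : 0 < s ^ 2 - 1 / 4 := by nlinarith
    exact this.ne'
  have h7 : 1 - 1 / 4 * (1 / s) ^ 2 = (s ^ 2 - 1 / 4) / s ^ 2 := by
    field_simp
  rw [h7]
  generalize s ^ 2 - 1 / 4 = D at *
  field_simp

end Pool.Agent.J6H39.IC
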