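import Pool.Agent.J6H39.IC.T4

/-! Project IC: a Tauberian theorem, part 5: from the Stieltjes transform to the second differences. -/

set_option autoImplicit false

open Filter Topology Set MeasureTheory

namespace Pool.Agent.J6H39.IC

variable {ι : Type*} {g b : ι → ℝ}

/-- the square of the cardinal sine -/
noncomputable def sq2 (x : ℝ) : ℝ := Real.sinc (x / 2) ^ 2

theorem sq2_cont : Continuous sq2 := by
  unfold sq2
  have := Real.continuous_sinc
  fun_prop

theorem sq2_nonneg (x : ℝ) : 0 ≤ sq2 x := sq_nonneg _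

theorem sq2_le_one (x : ℝ) : sq2 x ≤ 1 := by
  unfold sq2
  have h1 := Real.abs_sinc_le_one (x / 2)
  rw [← sq_abs]
  have := abs_nonneg (Real.sinc (x / 2))
  nlinarith

theorem sq2_mul (x : ℝ) : x ^ 2 * sq2 x = 2 - 2 * Real.cos x := by
  unfold sq2
  rcases eq_or_ne x 0 with h | h
  · rw [h]; simp
  · rw [Real.sinc_of_ne_zero (by positivity)]
    have h1 : Real.cos x = 1 - 2 * Real.sin (x / 2) ^ 2 := by
      have := Real.cos_two_mul (x / 2)
      rw [mul_div_cancel₀ x two_ne_zero] at this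
      have h2 := Real.sin_sq_add_cos_sq (x / 2)
      rw [this]
      linarith
    rw [h1]
    field_simp
    ring

theorem sq2_abs (x : ℝ) : sq2 |x| = sq2 x := by
  unfold sq2
  rcases abs_choice x with h | h <;> rw [h]
  rw [neg_div, Real.sinc_neg]

theorem sq2_bound (x : ℝ) : (1 + x ^ 2) * sq2 x ≤ 8 := by
  have h1 := sq2_le_one x
  have h2 := sq2_mul x
  have h3 := Real.neg_one_le_cos x
  rw [add_mul, one_mul, h2]
  linarith

theorem sq2_le (x : ℝ) : sq2 x ≤ 8 * (1 + x ^ 2)⁻¹ := by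
  rw [← div_eq_mul_inv, le_div_iff₀ (by positivity), mul_comm]
  exact sq2_bound x

theorem sq2_int : Integrable sq2 :=
  (inv_int.const_mul 8).mono' sq2_cont.aestronglyMeasurable (Eventually.of_forall fun x => by
    rw [Real.norm_eq_abs, abs_of_nonneg (sq2_nonneg x)]
    exact sq2_le x)

theorem sq2_integral : ∫ x : ℝ, sq2 x = 2 * Real.pi := by
  have h1 : ∫ t : ℝ, Real.sinc (Real.pi * t) ^ 2 = 1 := by
    have := (Pool.Agent.Helper7.Simplex.OT.J26884.sinc_fourier 0).2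
    simpa using this
  have h2 := Measure.integral_comp_mul_left sq2 (2 * Real.pi)
  have hpi := Real.pi_pos
  have e : (fun t : ℝ => sq2 (2 * Real.pi * t)) = fun t => Real.sinc (Real.pi * t) ^ 2 := by
    funext t
    unfold sq2
    congr 2
    ring
  rw [e, h1, abs_of_pos (by positivity), smul_eq_mul] at h2
  field_simp at h2
  linarith

/-- the test function -/
noncomputable def fR (δ u v y : ℝ) : ℝ := sq2 (Real.sqrt (y / max (1 - y) δ)) * tf δ u v y

theorem fR_cont {δ : ℝ} (hδ : 0 < δ) (u v : ℝ) : Continuous (fR δ u v) := by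
  unfold fR
  refine (sq2_cont.comp (Real.continuous_sqrt.comp ?_)).mul (tf_cont hδ u v)
  refine Continuous.div (by fun_prop) (by fun_prop) fun y => ?_
  have : 0 < max (1 - y) δ := lt_of_lt_of_le hδ (le_max_right _ _)
  exact this.ne'

theorem fR_eval {δ u v : ℝ} (huv : u < v) (hv : δ ≤ 1 - v) {s : ℝ} (hs : 0 < s) (γ : ℝ) :
    fR δ u v (γ ^ 2 / (s ^ 2 + γ ^ 2)) = sq2 (γ / s) * ((s ^ 2 + γ ^ 2) / s ^ 2) *
      cu u v (γ ^ 2 / (s ^ 2 + γ ^ 2)) := by
  unfold fR tf
  rcases le_or_gt (γ ^ 2 / (s ^ 2 + γ ^ 2)) v with h | h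
  · have e : 1 - γ ^ 2 / (s ^ 2 + γ ^ 2) = s ^ 2 / (s ^ 2 + γ ^ 2) := by field_simp; ring
    rw [max_eq_left (by linarith), e]
    have e2 : γ ^ 2 / (s ^ 2 + γ ^ 2) / (s ^ 2 / (s ^ 2 + γ ^ 2)) = (γ / s) ^ 2 := by field_simp
    rw [e2, Real.sqrt_sq_eq_abs, sq2_abs, div_div_eq_mul_div]
    ring
  · rw [cu_zero huv h.le]
    ring

theorem II_fR {δ u v : ℝ} (huv : u < v) (hv : δ ≤ 1 - v) :
    II (fR δ u v) = ∫ x : ℝ, sq2 x * cu u v (x ^ 2 / (1 + x ^ 2)) := by
  unfold II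
  congr 1
  funext x
  have h := fR_eval huv hv one_pos x
  rw [one_pow, div_one, div_one] at h
  rw [h]
  have h0 : (1 : ℝ) + x ^ 2 ≠ 0 := by positivity
  field_simp

/-- the tail -/
theorem II_tail {v R : ℝ} (hR : 0 ≤ R) (hv : yr R < v) :
    II (fun y => 1 - cu (yr R) v y) ≤ Real.pi - 2 * Real.arctan R := by
  have hc : ContinuousOn (cu (yr R) v) (Icc 0 1) := (cu_cont _ _).continuousOn
  have h1 : II (fun y => 1 - cu (yr R) v y) = Real.pi - II (cu (yr R) v) := by
    have := II_lin (f := fun _ => 1) continuousOn_const hc 1 (-1)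
    rw [II_one] at this
    rw [one_mul] at this
    have e : (fun y => 1 - cu (yr R) v y) = fun y => 1 + -1 * cu (yr R) v y := by
      funext y; ring
    rw [e, this]
    ring
  rw [h1]
  have h2 : 2 * Real.arctan R ≤ II (cu (yr R) v) := by
    have h3 : ∫ x in (-R)..R, (1 + x ^ 2)⁻¹ = 2 * Real.arctan R := by
      rw [integral_inv_one_add_sq, Real.arctan_neg]
      ring
    rw [← h3, intervalIntegral.integral_of_le (by linarith), ← integral_indicator measurableSet_Ioc]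
    unfold II
    refine integral_mono_of_nonneg (Eventually.of_forall fun x => ?_) (II_int hc)
      (Eventually.of_forall fun x => ?_)
    · exact indicator_nonneg (fun _ _ => by positivity) x
    beta_reduce
    by_cases hx : x ∈ Ioc (-R) R
    · rw [indicator_of_mem hx]
      have h4 : |x| ≤ R := abs_le.2 ⟨hx.1.le, hx.2⟩
      rw [← yr_le_iff hR] at h4
      rw [cu_one hv h4, one_mul]
    · rw [indicator_of_notMem hx]
      have := cu_nonneg (yr R) v (x ^ 2 / (1 + x ^ 2))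
      positivity
  linarith

theorem II_fR_sub {δ v R : ℝ} (hv : yr R < v) (hδ : δ ≤ 1 - v) :
    |II (fR δ (yr R) v) - 2 * Real.pi| ≤ 8 * II (fun y => 1 - cu (yr R) v y) := by
  have hc : ContinuousOn (cu (yr R) v) (Icc 0 1) := (cu_cont _ _).continuousOn
  have hc1 : ContinuousOn (fun y => 1 - cu (yr R) v y) (Icc 0 1) := continuousOn_const.sub hc
  rw [II_fR hv hδ, ← sq2_integral, abs_sub_comm]
  have hi : Integrable fun x : ℝ => sq2 x * cu (yr R) v (x ^ 2 / (1 + x ^ 2)) := by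
    refine sq2_int.mul_bdd (c := 1) ((cu_cont _ _).comp y_cont).aestronglyMeasurable
      (Eventually.of_forall fun x => ?_)
    rw [Real.norm_eq_abs, abs_of_nonneg (cu_nonneg _ _ _)]
    exact cu_le_one _ _ _
  rw [← integral_sub sq2_int hi]
  unfold II
  rw [← integral_const_mul, ← Real.norm_eq_abs]
  refine norm_integral_le_of_norm_le ((II_int hc1).const_mul 8) (Eventually.of_forall fun x => ?_)
  beta_reduce
  have h1 := sq2_le x
  have h2 := cu_le_one (yr R) v (x ^ 2 / (1 + x ^ 2))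
  have h3 := sq2_nonneg x
  have e : sq2 x - sq2 x * cu (yr R) v (x ^ 2 / (1 + x ^ 2)) =
      sq2 x * (1 - cu (yr R) v (x ^ 2 / (1 + x ^ 2))) := by ring
  rw [e, Real.norm_eq_abs, abs_of_nonneg (mul_nonneg h3 (by linarith))]
  calc sq2 x * (1 - cu (yr R) v (x ^ 2 / (1 + x ^ 2))) ≤
      8 * (1 + x ^ 2)⁻¹ * (1 - cu (yr R) v (x ^ 2 / (1 + x ^ 2))) := by
        refine mul_le_mul_of_nonneg_right h1 (by linarith)
    _ = _ := by ring

/-- the smoothed sum -/
noncomputable def G2 (g b : ι → ℝ) (s : ℝ) : ℝ :=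
  s * ∑' i, wt g b s i * (sq2 (g i / s) * ((s ^ 2 + g i ^ 2) / s ^ 2))

theorem G2_bdd {s : ℝ} (hs : 0 < s) (γ : ℝ) : sq2 (γ / s) * ((s ^ 2 + γ ^ 2) / s ^ 2) ≤ 8 := by
  have h := sq2_bound (γ / s)
  have e : (s ^ 2 + γ ^ 2) / s ^ 2 = 1 + (γ / s) ^ 2 := by field_simp
  rw [e, mul_comm]
  exact h

theorem G2_nonneg {s : ℝ} (hs : 0 < s) (γ : ℝ) : 0 ≤ sq2 (γ / s) * ((s ^ 2 + γ ^ 2) / s ^ 2) := by
  have := sq2_nonneg (γ / s)
  positivity

theorem G2_summable (hb : ∀ i, 0 ≤ b i) (hsum : Summable b) {s : ℝ} (hs : 1 ≤ s) :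
    Summable fun i => wt g b s i * (sq2 (g i / s) * ((s ^ 2 + g i ^ 2) / s ^ 2)) := by
  refine Summable.of_nonneg_of_le (fun i => mul_nonneg (wt_nonneg hb s i) (G2_nonneg (by linarith) _))
    (fun i => mul_le_mul_of_nonneg_left (G2_bdd (by linarith) _) (wt_nonneg hb s i))
    ((wt_summable hb hsum hs).mul_right 8)

theorem G2_sub (hb : ∀ i, 0 ≤ b i) (hsum : Summable b) {s : ℝ} (hs : 1 ≤ s) {δ u v : ℝ} (hδ : 0 < δ)
    (huv : u < v) (hv : δ ≤ 1 - v) :
    |G2 g b s - Lam g b s (fR δ u v)| ≤ 8 * Lam g b s (fun y => 1 - cu u v y) := by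
  have hs0 : 0 < s := by linarith
  obtain ⟨M, hM⟩ := bdd_of (fR_cont hδ u v).continuousOn
  have hc1 : ContinuousOn (fun y => 1 - cu u v y) (Icc 0 1) :=
    continuousOn_const.sub (cu_cont _ _).continuousOn
  obtain ⟨M', hM'⟩ := bdd_of hc1
  have s1 := G2_summable (g := g) hb hsum hs
  have s2 := lam_summable (g := g) hb hsum hs hM
  have s3 := lam_summable (g := g) hb hsum hs hM'
  unfold G2 Lam
  rw [← mul_sub, ← s1.tsum_sub s2, abs_mul, abs_of_pos hs0]
  have h3 : |∑' i, (wt g b s i * (sq2 (g i / s) * ((s ^ 2 + g i ^ 2) / s ^ 2)) -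
      wt g b s i * fR δ u v (g i ^ 2 / (s ^ 2 + g i ^ 2)))| ≤
      ∑' i, 8 * (wt g b s i * (1 - cu u v (g i ^ 2 / (s ^ 2 + g i ^ 2)))) := by
    rw [← Real.norm_eq_abs]
    refine tsum_of_norm_bounded (s3.mul_left 8).hasSum fun i => ?_
    rw [fR_eval huv hv hs0]
    have h4 := wt_nonneg (g := g) hb s i
    have h5 := G2_nonneg hs0 (g i)
    have h6 := cu_le_one u v (g i ^ 2 / (s ^ 2 + g i ^ 2))
    have h7 := G2_bdd hs0 (g i)
    have e : wt g b s i * (sq2 (g i / s) * ((s ^ 2 + g i ^ 2) / s ^ 2)) -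
        wt g b s i * (sq2 (g i / s) * ((s ^ 2 + g i ^ 2) / s ^ 2) *
          cu u v (g i ^ 2 / (s ^ 2 + g i ^ 2))) =
        wt g b s i * (sq2 (g i / s) * ((s ^ 2 + g i ^ 2) / s ^ 2) *
          (1 - cu u v (g i ^ 2 / (s ^ 2 + g i ^ 2)))) := by ring
    rw [e, Real.norm_eq_abs, abs_of_nonneg (mul_nonneg h4 (mul_nonneg h5 (by linarith)))]
    calc wt g b s i * (sq2 (g i / s) * ((s ^ 2 + g i ^ 2) / s ^ 2) *
          (1 - cu u v (g i ^ 2 / (s ^ 2 + g i ^ 2)))) ≤
        wt g b s i * (8 * (1 - cu u v (g i ^ 2 / (s ^ 2 + g i ^ 2)))) := by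
          refine mul_le_mul_of_nonneg_left (mul_le_mul_of_nonneg_right h7 (by linarith)) h4
      _ = _ := by ring
  rw [tsum_mul_left] at h3
  calc s * _ ≤ s * (8 * ∑' i, wt g b s i * (1 - cu u v (g i ^ 2 / (s ^ 2 + g i ^ 2)))) :=
        mul_le_mul_of_nonneg_left h3 hs0.le
    _ = _ := by ring

theorem G2_tendsto (hb : ∀ i, 0 ≤ b i) (hsum : Summable b) {A : ℝ}
    (h : Tendsto (fun s => s * sg g b s) atTop (𝓝 (Real.pi * A))) :
    Tendsto (G2 g b) atTop (𝓝 (2 * Real.pi * A)) := by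
  have h1 := EE_of_sg h
  have hA : 0 ≤ A := by
    have h2 : 0 ≤ Real.pi * A := by
      refine ge_of_tendsto h ?_
      filter_upwards [eventually_ge_atTop 0] with s hs
      exact mul_nonneg hs (tsum_nonneg fun i => wt_nonneg hb s i)
    exact nonneg_of_mul_nonneg_right h2 Real.pi_pos
  rw [Metric.tendsto_nhds]
  intro ε hε
  obtain ⟨R, hR0, hR⟩ : ∃ R : ℝ, 0 ≤ R ∧ A * (Real.pi - 2 * Real.arctan R) ≤ ε / 64 := by
    have h2 := (((Real.tendsto_arctan_atTop.mono_right nhdsWithin_le_nhds).const_mul 2).const_sub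
      Real.pi).const_mul A
    have e : A * (Real.pi - 2 * (Real.pi / 2)) = 0 := by ring
    rw [e] at h2
    obtain ⟨R, hR⟩ := ((h2.eventually (gt_mem_nhds (by positivity : (0 : ℝ) < ε / 64))).and
      (eventually_ge_atTop 0)).exists
    exact ⟨R, hR.2, hR.1.le⟩
  set v := yr (R + 1) with hv
  have huv : yr R < v := yr_lt hR0 (by linarith)
  set δ := 1 - v with hδ
  have hδ0 : 0 < δ := by have := yr_lt_one (R + 1); linarith
  have k1 := EE_all hb hsum h1 (fR_cont hδ0 (yr R) v).continuousOn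
  have hc1 : ContinuousOn (fun y => 1 - cu (yr R) v y) (Icc 0 1) :=
    continuousOn_const.sub (cu_cont _ _).continuousOn
  have k2 := EE_all hb hsum h1 hc1
  have k3 := II_tail hR0 huv
  have k4 := II_fR_sub huv (δ := δ) le_rfl
  have k5 := k1.2.eventually (Metric.ball_mem_nhds _ (by positivity : 0 < ε / 64))
  have k6 := k2.2.eventually (Metric.ball_mem_nhds _ (by positivity : 0 < ε / 64))
  filter_upwards [k5, k6, eventually_ge_atTop 1] with s h5 h6 h7
  have k7 := G2_sub (g := g) hb hsum h7 hδ0 huv le_rfl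
  rw [Real.dist_eq] at h5 h6 ⊢
  have k8 : A * II (fun y => 1 - cu (yr R) v y) ≤ ε / 64 := (mul_le_mul_of_nonneg_left k3 hA).trans hR
  have k9 : |A * II (fR δ (yr R) v) - 2 * Real.pi * A| ≤ 8 * (ε / 64) := by
    have e : A * II (fR δ (yr R) v) - 2 * Real.pi * A = A * (II (fR δ (yr R) v) - 2 * Real.pi) := by ring
    rw [e, abs_mul, abs_of_nonneg hA]
    calc A * |II (fR δ (yr R) v) - 2 * Real.pi| ≤ A * (8 * II (fun y => 1 - cu (yr R) v y)) := by gcongr
      _ = 8 * (A * II (fun y => 1 - cu (yr R) v y)) := by ring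
      _ ≤ _ := by gcongr
  rw [abs_lt] at h5 h6 ⊢
  rw [abs_le] at k7 k9
  constructor <;> linarith [h5.1, h5.2, h6.1, h6.2, k7.1, k7.2, k9.1, k9.2]

theorem qq_eq (γ l : ℝ) : qq γ l = (Real.exp (l / 2) - 1) ^ 2 + Real.exp (l / 2) * ((γ * l) ^ 2 * sq2 (γ * l)) := by
  rw [sq2_mul]
  unfold qq
  rw [exp_half l]
  ring

theorem CC_eq (hb : ∀ i, 0 ≤ b i) (hsum : Summable b) {s : ℝ} (hs : 1 ≤ s) :
    s * CC g b s⁻¹ = s * (Real.exp (s⁻¹ / 2) - 1) ^ 2 * (∑' i, b i) +
      Real.exp (s⁻¹ / 2) * (G2 g b s - (4 * s)⁻¹ * ∑' i, b i * sq2 (g i / s)) := by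
  have hs0 : 0 < s := by linarith
  have s1 := G2_summable (g := g) hb hsum hs
  have s2 : Summable fun i => b i * sq2 (g i / s) :=
    Summable.of_nonneg_of_le (fun i => mul_nonneg (hb i) (sq2_nonneg _))
      (fun i => by
        calc b i * sq2 (g i / s) ≤ b i * 1 := mul_le_mul_of_nonneg_left (sq2_le_one _) (hb i)
          _ = b i := mul_one _) hsum
  unfold CC G2
  rw [← tsum_mul_left, ← tsum_mul_left, ← tsum_mul_left, ← tsum_mul_left,
    ← (s1.mul_left s).tsum_sub (s2.mul_left _), ← tsum_mul_left,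
    ← (hsum.mul_left _).tsum_add (((s1.mul_left s).sub (s2.mul_left _)).mul_left _)]
  refine tsum_congr fun i => ?_
  rw [qq_eq]
  have e : g i * s⁻¹ = g i / s := by field_simp
  rw [e]
  unfold wt
  generalize sq2 (g i / s) = q
  generalize Real.exp (s⁻¹ / 2) = E
  have h1 : s ^ 2 + g i ^ 2 ≠ 0 := by positivity
  field_simp
  ring

/-- **(ii) implies (iii)** -/
theorem CC_of_sg (hb : ∀ i, 0 ≤ b i) (hsum : Summable b) {A : ℝ}
    (h : Tendsto (fun s => s * sg g b s) atTop (𝓝 (Real.pi * A))) :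
    Tendsto (fun l => CC g b l / l) (𝓝[>] 0) (𝓝 (2 * Real.pi * A)) := by
  have h1 := G2_tendsto hb hsum h
  set B := ∑' i, b i with hB
  have hinv : Tendsto (fun s : ℝ => s⁻¹ / 2) atTop (𝓝 0) := by
    have := (tendsto_inv_atTop_zero (𝕜 := ℝ)).div_const 2
    rwa [zero_div] at this
  have hexp : Tendsto (fun s : ℝ => Real.exp (s⁻¹ / 2)) atTop (𝓝 1) := by
    have := (Real.continuous_exp.tendsto 0).comp hinv
    rwa [Real.exp_zero] at this
  have h2 : Tendsto (fun s : ℝ => s * (Real.exp (s⁻¹ / 2) - 1) ^ 2 * B) atTop (𝓝 0) := by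
    refine squeeze_zero' (g := fun s : ℝ => s⁻¹ * |B|) ?_ ?_ ?_
    · filter_upwards [eventually_ge_atTop 0] with s hs
      exact mul_nonneg (mul_nonneg hs (sq_nonneg _)) (tsum_nonneg hb)
    · filter_upwards [eventually_ge_atTop 1] with s hs
      have hs0 : 0 < s := by linarith
      have hs1 : s⁻¹ ≤ 1 := inv_le_one_of_one_le₀ hs
      have hsp : 0 < s⁻¹ := inv_pos.2 hs0
      have h3 : |Real.exp (s⁻¹ / 2) - 1| ≤ 2 * |s⁻¹ / 2| := by
        refine Real.abs_exp_sub_one_le ?_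
        rw [abs_of_pos (by positivity)]
        linarith
      have h4 : 2 * |s⁻¹ / 2| = s⁻¹ := by
        rw [abs_of_pos (by positivity)]
        ring
      rw [h4] at h3
      have h5 : (Real.exp (s⁻¹ / 2) - 1) ^ 2 ≤ (s⁻¹) ^ 2 := by
        rw [← sq_abs]
        gcongr
      have h6 : B ≤ |B| := le_abs_self B
      have h7 : 0 ≤ |B| := abs_nonneg B
      calc s * (Real.exp (s⁻¹ / 2) - 1) ^ 2 * B ≤ s * (Real.exp (s⁻¹ / 2) - 1) ^ 2 * |B| :=
            mul_le_mul_of_nonneg_left h6 (mul_nonneg hs0.le (sq_nonneg _))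
        _ ≤ s * (s⁻¹) ^ 2 * |B| := by gcongr
        _ = s⁻¹ * |B| := by field_simp
    · have := (tendsto_inv_atTop_zero (𝕜 := ℝ)).mul_const |B|
      rwa [zero_mul] at this
  have h3 : Tendsto (fun s : ℝ => (4 * s)⁻¹ * ∑' i, b i * sq2 (g i / s)) atTop (𝓝 0) := by
    refine squeeze_zero' (g := fun s : ℝ => s⁻¹ * B) ?_ ?_ ?_
    · filter_upwards [eventually_ge_atTop 0] with s hs
      exact mul_nonneg (by positivity) (tsum_nonneg fun i => mul_nonneg (hb i) (sq2_nonneg _))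
    · filter_upwards [eventually_ge_atTop 1] with s hs
      have hs0 : 0 < s := by linarith
      have s2 : Summable fun i => b i * sq2 (g i / s) :=
        Summable.of_nonneg_of_le (fun i => mul_nonneg (hb i) (sq2_nonneg _))
          (fun i => by
            calc b i * sq2 (g i / s) ≤ b i * 1 := mul_le_mul_of_nonneg_left (sq2_le_one _) (hb i)
              _ = b i := mul_one _) hsum
      have h4 : ∑' i, b i * sq2 (g i / s) ≤ B := s2.tsum_le_tsum (fun i => by
            calc b i * sq2 (g i / s) ≤ b i * 1 := mul_le_mul_of_nonneg_left (sq2_le_one _) (hb i)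
              _ = b i := mul_one _) hsum
      have h5 : 0 ≤ ∑' i, b i * sq2 (g i / s) := tsum_nonneg fun i => mul_nonneg (hb i) (sq2_nonneg _)
      have h6 : (4 * s)⁻¹ ≤ s⁻¹ := by
        apply inv_anti₀ hs0
        linarith
      gcongr
    · have := (tendsto_inv_atTop_zero (𝕜 := ℝ)).mul_const B
      rwa [zero_mul] at this
  have h4 := h2.add (hexp.mul (h1.sub h3))
  have e : 0 + 1 * (2 * Real.pi * A - 0) = 2 * Real.pi * A := by ring
  rw [e] at h4
  have h5 : Tendsto (fun s : ℝ => s * CC g b s⁻¹) atTop (𝓝 (2 * Real.pi * A)) := by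
    refine h4.congr' ?_
    filter_upwards [eventually_ge_atTop 1] with s hs
    exact (CC_eq hb hsum hs).symm
  have h6 := h5.comp tendsto_inv_nhdsGT_zero
  refine h6.congr' ?_
  filter_upwards [self_mem_nhdsWithin] with l hl
  simp only [Function.comp, inv_inv]
  rw [div_eq_inv_mul]

/-- **the Tauberian theorem** -/
theorem tauber [Countable ι] (hb : ∀ i, 0 ≤ b i) (hsum : Summable b) (A : ℝ) :
    Tendsto (fun T => JJ g b T / T) atTop (𝓝 (2 * A)) ↔
    Tendsto (fun l => CC g b l / l) (𝓝[>] 0) (𝓝 (2 * Real.pi * A)) :=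
  ⟨fun h => CC_of_sg hb hsum (sg_of_JJ hb hsum h), fun h => JJ_of_sg hb hsum (sg_of_CC hb hsum h)⟩

end Pool.Agent.J6H39.IC
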