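import Pool.Agent.J6H39.IC.Inc

/-! Project IC: the zeros. -/

set_option autoImplicit false

open Filter Topology Set MeasureTheory

namespace Pool.Agent.J6H39.IC

open Pool.Agent.J6H39.ML (wc w0 w0_mem w0_not Od pt pt_im pt_re mem_Od NT RHS ZC im_inj im_range comp_im pt_of
  zero_notMem fin_Od summable_iff)

/-- the ordinates -/
noncomputable def gz (ρ : NT) : ℝ := (ρ : ℂ).im

/-- the weights `1 / |ρ ζ'(ρ)|²` -/
noncomputable def bz (ρ : NT) : ℝ := 1 / ‖(ρ : ℂ) * deriv riemannZeta ρ‖ ^ 2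

theorem bz_nonneg (ρ : NT) : 0 ≤ bz ρ := by
  unfold bz
  positivity

/-- the nontrivial zeros with ordinate in `(0, T]` -/
def Z (T : ℝ) : Set ℂ := {ρ : ℂ | riemannZeta ρ = 0 ∧ 0 < ρ.re ∧ ρ.re < 1 ∧ 0 < ρ.im ∧ ρ.im ≤ T}

/-- `J_{-1}(T)` -/
noncomputable def J (T : ℝ) : ℝ := ∑ᶠ ρ ∈ Z T, 1 / ‖deriv riemannZeta ρ‖ ^ 2

theorem fin_W (T : ℝ) : {s : ℂ | s ∈ NT ∧ |s.im| ≤ T}.Finite := Pool.Agent.W280.WM.fin_NT T

theorem Z_fin (T : ℝ) : (Z T).Finite := by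
  refine (fin_W T).subset ?_
  rintro s ⟨h1, h2, h3, h4, h5⟩
  exact ⟨⟨h1, h2, h3⟩, by rw [abs_of_pos h4]; exact h5⟩

theorem countable_NT : Countable NT := by
  have h : NT ⊆ ⋃ n : ℕ, {s : ℂ | s ∈ NT ∧ |s.im| ≤ n} := by
    intro s hs
    obtain ⟨n, hn⟩ := exists_nat_ge |s.im|
    exact mem_iUnion.2 ⟨n, hs, hn⟩
  have h2 : NT.Countable := (countable_iUnion fun n : ℕ => (fin_W n).countable).mono h
  exact h2.to_subtype

theorem zeta_conj (s : ℂ) : riemannZeta ((starRingEnd ℂ) s) = (starRingEnd ℂ) (riemannZeta s) :=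
  riemannZeta_conj s

theorem deriv_zeta_conj (s : ℂ) :
    deriv riemannZeta ((starRingEnd ℂ) s) = (starRingEnd ℂ) (deriv riemannZeta s) := by
  have h1 : (starRingEnd ℂ) ∘ riemannZeta ∘ (starRingEnd ℂ) = riemannZeta := by
    funext z
    simp only [Function.comp]
    rw [zeta_conj, Complex.conj_conj]
  have h2 := congrFun (deriv_conj_conj (f := riemannZeta)) ((starRingEnd ℂ) s)
  rw [h1] at h2
  simp only [Function.comp, Complex.conj_conj] at h2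
  exact h2

theorem norm_deriv_conj (s : ℂ) : ‖deriv riemannZeta ((starRingEnd ℂ) s)‖ = ‖deriv riemannZeta s‖ := by
  rw [deriv_zeta_conj, Complex.norm_conj]

theorem im_ne (hR : RHS) {ρ : ℂ} (h : ρ ∈ NT) : ρ.im ≠ 0 := by
  intro h0
  have h1 := pt_of (hR ρ h).1
  rw [h0] at h1
  exact zero_notMem hR (mem_Od.2 (by rw [h1]; exact h))

theorem norm_sq (hR : RHS) {ρ : ℂ} (h : ρ ∈ NT) : ‖ρ‖ ^ 2 = ρ.im ^ 2 + 1 / 4 := by
  rw [← Complex.normSq_eq_norm_sq, Complex.normSq_apply, (hR ρ h).1]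
  ring

theorem bz_mul (hR : RHS) (ρ : NT) : bz ρ * (gz ρ ^ 2 + 1 / 4) = 1 / ‖deriv riemannZeta (ρ : ℂ)‖ ^ 2 := by
  unfold bz gz
  rw [← norm_sq hR ρ.2, norm_mul, mul_pow]
  have h1 : ‖(ρ : ℂ)‖ ≠ 0 := by
    rw [norm_ne_zero_iff]
    intro h
    have := ρ.2.2.1
    rw [h] at this
    simp at this
  have h2 : ‖deriv riemannZeta (ρ : ℂ)‖ ≠ 0 := norm_ne_zero_iff.2 (hR ρ ρ.2).2
  field_simp

/-- the sum over the zeros with `|γ| ≤ T` -/
theorem sum_W (hR : RHS) (T : ℝ) :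
    ∑ ρ ∈ (fin_W T).toFinset, 1 / ‖deriv riemannZeta ρ‖ ^ 2 = 2 * J T := by
  classical
  set a : ℂ → ℝ := fun ρ => 1 / ‖deriv riemannZeta ρ‖ ^ 2 with ha
  set W := (fin_W T).toFinset with hW
  have hmem : ∀ ρ, ρ ∈ W ↔ ρ ∈ NT ∧ |ρ.im| ≤ T := by
    intro ρ
    rw [hW, Set.Finite.mem_toFinset]
    rfl
  have hJ : J T = ∑ ρ ∈ W.filter (fun ρ => 0 < ρ.im), a ρ := by
    unfold J
    rw [finsum_mem_eq_finite_toFinset_sum _ (Z_fin T)]
    refine Finset.sum_congr ?_ fun _ _ => rfl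
    ext ρ
    rw [Set.Finite.mem_toFinset, Finset.mem_filter, hmem]
    constructor
    · rintro ⟨h1, h2, h3, h4, h5⟩
      exact ⟨⟨⟨h1, h2, h3⟩, by rw [abs_of_pos h4]; exact h5⟩, h4⟩
    · rintro ⟨⟨⟨h1, h2, h3⟩, h5⟩, h4⟩
      exact ⟨h1, h2, h3, h4, by rwa [abs_of_pos h4] at h5⟩
  have hneg : ∑ ρ ∈ W.filter (fun ρ => ¬ 0 < ρ.im), a ρ = ∑ ρ ∈ W.filter (fun ρ => 0 < ρ.im), a ρ := by
    refine Finset.sum_nbij' (fun ρ => (starRingEnd ℂ) ρ) (fun ρ => (starRingEnd ℂ) ρ) ?_ ?_ ?_ ?_ ?_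
    · intro ρ h
      rw [Finset.mem_filter, hmem] at h ⊢
      obtain ⟨⟨⟨h1, h2, h3⟩, h4⟩, h5⟩ := h
      have h6 := im_ne hR (ρ := ρ) ⟨h1, h2, h3⟩
      refine ⟨⟨⟨?_, ?_, ?_⟩, ?_⟩, ?_⟩
      · rw [zeta_conj, h1, map_zero]
      · rwa [Complex.conj_re]
      · rwa [Complex.conj_re]
      · rwa [Complex.conj_im, abs_neg]
      · rw [Complex.conj_im]
        have : ρ.im < 0 := lt_of_le_of_ne (not_lt.1 h5) h6
        linarith
    · intro ρ h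
      rw [Finset.mem_filter, hmem] at h ⊢
      obtain ⟨⟨⟨h1, h2, h3⟩, h4⟩, h5⟩ := h
      refine ⟨⟨⟨?_, ?_, ?_⟩, ?_⟩, ?_⟩
      · rw [zeta_conj, h1, map_zero]
      · rwa [Complex.conj_re]
      · rwa [Complex.conj_re]
      · rwa [Complex.conj_im, abs_neg]
      · rw [Complex.conj_im]
        linarith
    · intro ρ _
      exact Complex.conj_conj ρ
    · intro ρ _
      exact Complex.conj_conj ρ
    · intro ρ _
      rw [ha]
      beta_reduce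
      rw [norm_deriv_conj]
  rw [← Finset.sum_filter_add_sum_filter_not W (fun ρ => 0 < ρ.im), hneg, ← hJ]
  ring

theorem JJ_eq (hR : RHS) (T : ℝ) : JJ gz bz T = 2 * J T := by
  classical
  rw [← sum_W hR]
  unfold JJ
  have e : ∀ ρ : NT, (if |gz ρ| ≤ T then bz ρ * (gz ρ ^ 2 + 1 / 4) else 0 : ℝ) =
      (fun z : ℂ => if |z.im| ≤ T then 1 / ‖deriv riemannZeta z‖ ^ 2 else 0) (ρ : ℂ) := by
    intro ρ
    rw [bz_mul hR]
    rfl
  simp_rw [e]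
  rw [tsum_subtype NT (fun z : ℂ => if |z.im| ≤ T then 1 / ‖deriv riemannZeta z‖ ^ 2 else 0)]
  rw [tsum_eq_sum (s := (fin_W T).toFinset)]
  · refine Finset.sum_congr rfl fun z hz => ?_
    rw [Set.Finite.mem_toFinset] at hz
    rw [indicator_of_mem hz.1, if_pos hz.2]
  · intro z hz
    rw [Set.Finite.mem_toFinset] at hz
    by_cases h : z ∈ NT
    · rw [indicator_of_mem h, if_neg fun h2 => hz ⟨h, h2⟩]
    · rw [indicator_of_notMem h]

/-- finite sums over zeros with `|γ| ≤ T` -/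
theorem fin_le (hR : RHS) (T : ℝ) (S : Finset NT) (hS : ∀ ρ ∈ S, |gz ρ| ≤ T) :
    ∑ ρ ∈ S, bz ρ * (gz ρ ^ 2 + 1 / 4) ≤ 2 * J T := by
  classical
  rw [← sum_W hR]
  have e : ∑ ρ ∈ S, bz ρ * (gz ρ ^ 2 + 1 / 4) =
      ∑ z ∈ S.map (Function.Embedding.subtype _), 1 / ‖deriv riemannZeta z‖ ^ 2 := by
    rw [Finset.sum_map]
    exact Finset.sum_congr rfl fun ρ _ => bz_mul hR ρ
  rw [e]
  refine Finset.sum_le_sum_of_subset_of_nonneg ?_ fun _ _ _ => by positivity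
  intro z hz
  rw [Finset.mem_map] at hz
  obtain ⟨ρ, h1, rfl⟩ := hz
  rw [Set.Finite.mem_toFinset]
  exact ⟨ρ.2, hS ρ h1⟩

/-- the sum over the zeros and the sum over the reals -/
theorem CC_tsum (hR : RHS) (l : ℝ) : CC gz bz l = ∑' γ : ℝ, ‖w0 γ‖ ^ 2 * qq γ l := by
  unfold CC
  have h1 : (fun γ => ‖w0 γ‖ ^ 2 * qq γ l) ∘ (fun ρ : NT => (ρ : ℂ).im) = fun ρ : NT => bz ρ * qq (gz ρ) l := by
    funext ρ
    have h2 := congrFun (comp_im hR) ρ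
    simp only [Function.comp] at h2 ⊢
    rw [h2]
    rfl
  rw [← h1]
  refine (im_inj hR).tsum_eq (f := fun γ => ‖w0 γ‖ ^ 2 * qq γ l) fun γ hγ => ?_
  by_contra hcon
  refine hγ ?_
  beta_reduce
  rw [im_range γ hcon, zero_mul]

/-- `|e^{ρ l} - 1|²` -/
theorem qq_norm (γ l : ℝ) : ‖Complex.exp (pt γ * l) - 1‖ ^ 2 = qq γ l := by
  have e : pt γ * l = ((l / 2 : ℝ) : ℂ) + ((γ * l : ℝ) : ℂ) * Complex.I := by
    apply Complex.ext
    · simp [pt_re]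
      ring
    · simp [pt_im]
  rw [e, Complex.exp_add, Complex.exp_mul_I, ← Complex.normSq_eq_norm_sq, Complex.normSq_apply,
    ← Complex.ofReal_exp, ← Complex.ofReal_cos, ← Complex.ofReal_sin]
  simp only [Complex.sub_re, Complex.mul_re, Complex.ofReal_re, Complex.ofReal_im, Complex.add_re,
    Complex.add_im, Complex.mul_im, Complex.I_re, Complex.I_im, Complex.sub_im, Complex.one_re, Complex.one_im]
  unfold qq
  rw [exp_half l]
  have h := Real.sin_sq_add_cos_sq (γ * l)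
  generalize Real.exp (l / 2) = E at *
  generalize Real.sin (γ * l) = s at *
  generalize Real.cos (γ * l) = c at *
  linear_combination E ^ 2 * h

/-- the power -/
theorem term_eq (hR : RHS) {κ : ℝ} (hκ : 0 < κ) (ρ : NT) :
    ‖((1 + κ : ℝ) : ℂ) ^ (ρ : ℂ) - 1‖ ^ 2 / ‖(ρ : ℂ) * deriv riemannZeta ρ‖ ^ 2 =
      bz ρ * qq (gz ρ) (Real.log (1 + κ)) := by
  have h1 : (1 + κ : ℝ) ≠ 0 := by positivity
  rw [Complex.cpow_def_of_ne_zero (by exact_mod_cast h1), ← Complex.ofReal_log (by positivity), mul_comm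
    ((Real.log (1 + κ) : ℝ) : ℂ), ← pt_of (hR ρ ρ.2).1, qq_norm]
  unfold bz gz
  rw [pt_of (hR ρ ρ.2).1]
  ring

/-- lower bound for `|e^{ρ l} - 1|²` -/
theorem qq_ge {γ l : ℝ} (h : (γ ^ 2 + 1 / 4) * l ^ 2 ≤ 1 / 4) :
    (γ ^ 2 + 1 / 4) * l ^ 2 / 4 ≤ qq γ l := by
  have hn : ‖pt γ * l‖ ^ 2 = (γ ^ 2 + 1 / 4) * l ^ 2 := by
    rw [norm_mul, mul_pow, ← Complex.normSq_eq_norm_sq, Complex.normSq_apply, pt_re, pt_im, Complex.norm_real,
      Real.norm_eq_abs, sq_abs]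
    ring
  set z := pt γ * l with hz
  have hz1 : ‖z‖ ≤ 1 / 2 := by
    have h0 := norm_nonneg z
    nlinarith
  have h2 := Complex.norm_exp_sub_one_sub_id_le (x := z) (by linarith)
  have h3 : ‖z‖ ≤ ‖Complex.exp z - 1‖ + ‖Complex.exp z - 1 - z‖ := by
    have := norm_sub_le (Complex.exp z - 1) (Complex.exp z - 1 - z)
    rwa [sub_sub_cancel] at this
  have h4 : ‖z‖ / 2 ≤ ‖Complex.exp z - 1‖ := by
    have h0 := norm_nonneg z
    nlinarith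
  rw [← qq_norm, ← hn, ← hz]
  have h0 := norm_nonneg z
  nlinarith [norm_nonneg (Complex.exp z - 1)]

end Pool.Agent.J6H39.IC
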